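import Pool.Agent.W833.BD.Decor

/-! The average covariance over any finite family of sites is bounded below. -/

namespace Pool.Agent.Y962.BD

set_option linter.unusedSectionVars false

open Pool.Agent.W833.BD MeasureTheory Filter Topology ProbabilityTheory
open scoped ENNReal

variable {d : ℕ} [NeZero d]

/-- The averages of the covariances of the symmetrised law over finite families of sites are
bounded below. -/
theorem cov_avg {ν : Measure (Om d)} (hν : Nice ν) {a : ℝ} (ha : 0 < a)
    (hmean : ∀ x : V d, ∫ w, (w x : ℝ) ∂ν = a * x 0) :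
    ∃ (R : ℕ) (ε : ℝ), 0 < ε ∧
      (∀ (x : ℕ → V d) (N : ℕ), ε * (N : ℝ) ^ 2 ≤ ∑ i ∈ Finset.range N, ∑ j ∈ Finset.range N,
        cov[fun g => phi R (grad g (x i)), fun g => phi R (grad g (x j)); W833.BD.symm ν]) ∧
      ∀ z : V d, ∃ k : ℕ → ℕ, StrictMono k ∧ ∀ n,
        ε ≤ cov[fun g => phi R (grad g 0), fun g => phi R (grad g (k n • z)); W833.BD.symm ν] := by
  have hprob := hν.wstat.prob
  -- the truncation level
  have h1 : Tendsto (fun R : ℕ => ∫ g, phi R (grad g 0) ∂ν) atTop (𝓝 a) := by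
    have h2 : ∫ g : Om d, ((g (0 + Pi.single 0 1) : ℝ) - g 0) ∂ν = a := by
      rw [integral_sub (hν.int _) (hν.int _), hmean, hmean]
      simp
    rw [← h2]
    refine tendsto_integral_of_dominated_convergence
      (fun g => |(g (0 + Pi.single 0 1) : ℝ) - g 0|)
      (fun R => (loc_phi R 0).measurable.aestronglyMeasurable) ?_ ?_ ?_
    · exact ((hν.int _).sub (hν.int _)).abs
    · intro R
      refine Eventually.of_forall fun g => ?_
      unfold phi grad
      push_cast
      exact abs_trn_le' R _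
    · refine Eventually.of_forall fun g => ?_
      unfold phi grad
      push_cast
      exact tendsto_trn _
  obtain ⟨R, hR⟩ := (h1.eventually (lt_mem_nhds ha)).exists
  set m : SG d → Measure (Om d) := fun h => ν.map (Sp h.1 h.2) with hm
  have hmN : ∀ h, Nice (m h) := fun h => hν.map_Sp h.1 h.2
  have hμ : Nice (W833.BD.symm ν) := hν.symm
  have hμp := hμ.wstat.prob
  have hcard : (0 : ℝ) < Fintype.card (SG d) := by
    have : 0 < Fintype.card (SG d) := Fintype.card_pos
    exact_mod_cast this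
  set c0 : ℝ := (Fintype.card (SG d) : ℝ)⁻¹ * ∑ h, (∫ g, phi R (grad g 0) ∂(m h)) ^ 2 with hc0
  have hone : m (1, fun _ => 1) = ν := by
    simp only [hm]
    have : (Sp (1 : Equiv.Perm (Fin d)) (fun _ => (1 : ℤˣ)) : Om d → Om d) = id := by
      funext f y
      show f _ = f y
      congr 1
      funext k
      simp [sp]
    rw [this, Measure.map_id]
  have hc0pos : 0 < c0 := by
    refine mul_pos (inv_pos.2 hcard) ?_
    refine lt_of_lt_of_le ?_ (Finset.single_le_sum (f := fun h =>
      (∫ g, phi R (grad g 0) ∂(m h)) ^ 2) (fun _ _ => sq_nonneg _)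
      (Finset.mem_univ ((1 : Equiv.Perm (Fin d)), fun _ => (1 : ℤˣ))))
    simp only [hone]
    positivity
  -- the mean vanishes
  have hmean0 : ∫ g, phi R (grad g 0) ∂(W833.BD.symm ν) = 0 := by
    have h2 : ∫ g, phi R (grad g 0) ∂(W833.BD.symm ν)
        = ∫ g, phi R (grad (Sp 1 (fun _ => (-1 : ℤˣ)) g) 0) ∂(W833.BD.symm ν) := by
      conv_lhs => rw [← symm_map ν 1 (fun _ => (-1 : ℤˣ))]
      rw [integral_map (measurable_Sp _ _).aemeasurable
        (loc_phi R 0).measurable.aestronglyMeasurable]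
    have h3 : ∀ g : Om d, phi R (grad (Sp 1 (fun _ => (-1 : ℤˣ)) g) 0)
        = - phi R (grad g (0 + -Pi.single 0 1)) := by
      intro g
      unfold phi
      rw [← trn_neg]
      congr 1
      simp only [grad, Sp]
      have e1 : sp 1 (fun _ => (-1 : ℤˣ)) (0 + Pi.single 0 1 : V d) = 0 + -Pi.single 0 1 := by
        funext k
        simp [sp]
      have e2 : sp 1 (fun _ => (-1 : ℤˣ)) (0 : V d) = 0 := sp_zero _ _
      have e3 : (0 + -Pi.single 0 1 + Pi.single 0 1 : V d) = 0 := by simp
      rw [e1, e2, e3]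
      push_cast
      ring
    have h4 : ∫ g, phi R (grad g (0 + -Pi.single 0 1)) ∂(W833.BD.symm ν)
        = ∫ g, phi R (grad g 0) ∂(W833.BD.symm ν) := mean_phi hμ R _
    simp only [h3] at h2
    rw [integral_neg, h4] at h2
    linarith
  have hL2 : ∀ x : V d, MemLp (fun g : Om d => phi R (grad g x)) 2 (W833.BD.symm ν) := fun x =>
    MemLp.of_bound (loc_phi R x).measurable.aestronglyMeasurable R
      (Eventually.of_forall fun g => abs_phi_le R _)
  have hcov : ∀ x y : V d,
      cov[fun g => phi R (grad g x), fun g => phi R (grad g y); W833.BD.symm ν]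
        = ∫ g, phi R (grad g x) * phi R (grad g y) ∂(W833.BD.symm ν) := by
    intro x y
    rw [covariance_eq_sub (hL2 x) (hL2 y), mean_phi hμ R x, hmean0, zero_mul, sub_zero]
    rfl
  have hcesx : ∀ (x : ℕ → V d) (N : ℕ), (N : ℝ) ^ 2 * c0
      ≤ ∑ i ∈ Finset.range N, ∑ j ∈ Finset.range N,
        ∫ g, phi R (grad g (x i)) * phi R (grad g (x j)) ∂(W833.BD.symm ν) := by
    intro x N
    have h2 : ∀ i j, ∫ g, phi R (grad g (x i)) * phi R (grad g (x j)) ∂(W833.BD.symm ν)
        = (Fintype.card (SG d) : ℝ)⁻¹ *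
        ∑ h, ∫ g, phi R (grad g (x i)) * phi R (grad g (x j)) ∂(m h) := by
      intro i j
      unfold W833.BD.symm
      rw [integral_avg fun h => int_phi2 (hmN h) R _ _]
    simp only [h2]
    have h3 : ∑ i ∈ Finset.range N, ∑ j ∈ Finset.range N, (Fintype.card (SG d) : ℝ)⁻¹ *
        ∑ h, ∫ g, phi R (grad g (x i)) * phi R (grad g (x j)) ∂(m h)
        = (Fintype.card (SG d) : ℝ)⁻¹ * ∑ h, ∑ i ∈ Finset.range N, ∑ j ∈ Finset.range N,
          ∫ g, phi R (grad g (x i)) * phi R (grad g (x j)) ∂(m h) := by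
      simp only [← Finset.mul_sum]
      congr 1
      rw [Finset.sum_congr rfl fun i _ => Finset.sum_comm, Finset.sum_comm]
    rw [h3, hc0, mul_left_comm, Finset.mul_sum]
    refine mul_le_mul_of_nonneg_left (Finset.sum_le_sum fun h _ => ?_) (inv_pos.2 hcard).le
    have h4 := sq_ge (hmN h) R x N
    rw [mul_pow] at h4
    exact h4
  refine ⟨R, c0 / 2, by positivity, fun x N => ?_, fun z => ?_⟩
  · simp only [hcov]
    refine le_trans ?_ (hcesx x N)
    have : 0 ≤ (N : ℝ) ^ 2 := by positivity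
    nlinarith
  -- the correlations
  set C : ℕ → ℝ := fun k => ∫ g, phi R (grad g 0) * phi R (grad g (k • z)) ∂(W833.BD.symm ν) with hC
  set E : ℕ → ℕ → ℝ := fun i j =>
    ∫ g, phi R (grad g (i • z)) * phi R (grad g (j • z)) ∂(W833.BD.symm ν) with hE
  have hE1 : ∀ i k, E i (i + k) = C k := by
    intro i k
    have := corr_phi hμ R 0 (k • z) (i • z)
    simp only [hE, hC]
    rw [← this, zero_add, ← add_smul, add_comm k i]
  have hE2 : ∀ i k, E (i + k) i = C k := by
    intro i k
    rw [← hE1 i k]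
    simp only [hE]
    congr 1
    funext g
    exact mul_comm _ _
  have hCB : ∀ k, C k ≤ (R : ℝ) * R := by
    intro k
    have h2 := norm_integral_le_of_norm_le_const (μ := W833.BD.symm ν)
      (f := fun g => phi R (grad g 0) * phi R (grad g (k • z))) (C := (R : ℝ) * R)
      (Eventually.of_forall fun g => by
        rw [Real.norm_eq_abs, abs_mul]
        exact mul_le_mul (abs_phi_le R _) (abs_phi_le R _) (abs_nonneg _) (Nat.cast_nonneg R))
    simp only [probReal_univ, mul_one] at h2
    exact (le_abs_self _).trans h2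
  have hces : ∀ N : ℕ, (N : ℝ) ^ 2 * c0
      ≤ ∑ i ∈ Finset.range N, ∑ j ∈ Finset.range N, E i j := fun N =>
    hcesx (fun i => i • z) N
  have hfreq := freq_of_cesaro hc0pos hE1 hE2 hCB (by positivity) hces
  obtain ⟨k, hk1, hk2⟩ := extraction_of_frequently_atTop (P := fun n => c0 / 2 ≤ C n)
    (frequently_atTop.2 fun n0 => by
      obtain ⟨n, h1, h2⟩ := hfreq n0
      exact ⟨n, h1, h2⟩)
  refine ⟨k, hk1, fun n => ?_⟩
  rw [hcov]
  exact hk2 n

end Pool.Agent.Y962.BD
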