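import Pool.Agent.Y962.BD.TabU

/-! The finite check for the upper bound. -/

namespace Pool.Agent.Y962.BD

/-- check of all numbers below `n` -/
def allB : ℕ → (ℕ → Bool) → Bool
  | 0, _ => true
  | n + 1, p => cond (p n) (allB n p) false

lemma allB_iff {n : ℕ} {p : ℕ → Bool} : allB n p = true ↔ ∀ i < n, p i = true := by
  induction n with
  | zero => simp [allB]
  | succ n ih =>
    constructor
    · intro h i hi
      unfold allB at h
      cases hp : p n with
      | false => simp [hp] at h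
      | true =>
        simp only [hp, cond_true] at h
        rcases Nat.lt_succ_iff_lt_or_eq.1 hi with h1 | h1
        · exact ih.1 h i h1
        · rw [h1, hp]
    · intro h
      unfold allB
      rw [h n (Nat.lt_succ_self n), cond_true]
      exact ih.2 fun i hi => h i (Nat.lt_succ_of_lt hi)

/-- minimum with `6` -/
def m6 (a : ℕ) : ℕ := cond (Nat.ble a 6) a 6

/-- minimum with `7` -/
def m7 (a : ℕ) : ℕ := cond (Nat.ble a 7) a 7

/-- maximum -/
def mx (a b : ℕ) : ℕ := cond (Nat.ble a b) b a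

lemma mx_eq (a b : ℕ) : mx a b = max a b := by
  unfold mx
  cases h : Nat.ble a b
  · simp only [cond_false]
    have : ¬ a ≤ b := fun h' => by
      rw [← Nat.ble_eq] at h'
      simp [h] at h'
    omega
  · simp only [cond_true]
    have : a ≤ b := by rwa [← Nat.ble_eq]
    omega

lemma m6_eq (a : ℕ) : m6 a = min a 6 := by
  unfold m6
  cases h : Nat.ble a 6
  · simp only [cond_false]
    have : ¬ a ≤ 6 := fun h' => by
      rw [← Nat.ble_eq] at h'
      simp [h] at h'
    omega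
  · simp only [cond_true]
    have : a ≤ 6 := by rwa [← Nat.ble_eq]
    omega

lemma m7_eq (a : ℕ) : m7 a = min a 7 := by
  unfold m7
  cases h : Nat.ble a 7
  · simp only [cond_false]
    have : ¬ a ≤ 7 := fun h' => by
      rw [← Nat.ble_eq] at h'
      simp [h] at h'
    omega
  · simp only [cond_true]
    have : a ≤ 7 := by rwa [← Nat.ble_eq]
    omega

/-- values of `ψ` -/
def psD (a b c : ℕ) : ℕ :=
  fld 17 psT (Nat.add (Nat.add (Nat.mul 49 (m6 a)) (Nat.mul 7 (m6 b))) (m6 c))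

/-- values of `γ` -/
def gaD (a b c d : ℕ) : ℕ :=
  fld 18 gaT (Nat.add (Nat.add (Nat.add (Nat.mul 343 (m6 a)) (Nat.mul 49 (m6 b)))
    (Nat.mul 7 (m6 c))) (m6 d))

/-- values of `λ` -/
def laD (a b c : ℕ) : ℕ :=
  fld 18 laT (Nat.add (Nat.add (Nat.mul 64 (m7 a)) (Nat.mul 8 (m7 b))) (m7 c))

/-- the weight `5 ^ 6 (7 / 5) ^ (m - 7)` -/
def Wt (m : ℕ) : ℕ := Nat.mul (Nat.pow 7 (Nat.sub m 7)) (Nat.pow 5 (Nat.sub 13 m))

/-- the function `F` -/
def wF (x y z : ℕ) : ℕ :=
  Nat.mul (Wt (mx x (mx y z))) (psD (Nat.sub (mx x (mx y z)) x) (Nat.sub (mx x (mx y z)) y)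
    (Nat.sub (mx x (mx y z)) z))

/-- the function `G` -/
def wG (a x y z : ℕ) : ℕ :=
  Nat.mul (Wt (mx a (mx x (mx y z)))) (gaD (Nat.sub (mx a (mx x (mx y z))) a)
    (Nat.sub (mx a (mx x (mx y z))) x) (Nat.sub (mx a (mx x (mx y z))) y)
    (Nat.sub (mx a (mx x (mx y z))) z))

/-- the new height -/
def nzN (l x r : ℕ) : ℕ := mx (Nat.succ x) (mx l r)

/-- the first inequality -/
def chk1 (A x y z : ℕ) : Bool :=
  Nat.ble (Nat.add (Nat.mul 5 (wF (nzN A x y) y z)) (Nat.mul 7 (wG A x y z)))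
    (Nat.add (Nat.mul 78125 (laD (Nat.sub 7 x) (Nat.sub 7 y) (Nat.sub 7 z)))
      (Nat.mul 700000 (Wt (mx A 7))))

/-- the second inequality -/
def chk2 (A x y z : ℕ) : Bool :=
  Nat.ble (Nat.mul 10000 (Nat.add (Nat.add (wF x y (nzN y z A)) (wF x (nzN x y z) z))
      (Nat.add (Nat.mul 100000 (Wt (mx A 7)))
        (Nat.mul 15625 (laD (Nat.sub 7 x) (Nat.sub 7 y) (Nat.sub 7 z))))))
    (Nat.add (Nat.mul 39792 (wF x y z)) (Nat.mul 10000 (wG x y z A)))

/-- the whole check -/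
def chkU : Bool :=
  allB 8 fun x => allB 8 fun y => allB 8 fun z =>
    cond (Nat.beq (mx x (mx y z)) 7)
      (allB 13 fun A => cond (chk1 (Nat.succ A) x y z) (chk2 (Nat.succ A) x y z) false) true

set_option maxRecDepth 100000 in
lemma chkU_true : chkU = true := by decide +kernel

set_option maxRecDepth 100000 in
lemma chkP_true : (allB 343 fun i => Nat.ble 1 (fld 17 psT i)) = true := by decide +kernel

lemma chk_fin {A x y z : ℕ} (hx : x ≤ 7) (hy : y ≤ 7) (hz : z ≤ 7) (h : max x (max y z) = 7)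
    (hA : 1 ≤ A) (hA' : A ≤ 13) : chk1 A x y z = true ∧ chk2 A x y z = true := by
  have h1 := chkU_true
  unfold chkU at h1
  rw [allB_iff] at h1
  have h2 := h1 x (by omega)
  rw [allB_iff] at h2
  have h3 := h2 y (by omega)
  rw [allB_iff] at h3
  have h4 := h3 z (by omega)
  rw [mx_eq, mx_eq, h] at h4
  have hb : Nat.beq 7 7 = true := rfl
  rw [hb, cond_true] at h4
  rw [allB_iff] at h4
  obtain ⟨B, rfl⟩ : ∃ B, A = B + 1 := ⟨A - 1, by omega⟩
  have h5 := h4 B (by omega)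
  have h6 : Nat.succ B = B + 1 := rfl
  rw [h6] at h5
  cases h7 : chk1 (B + 1) x y z with
  | false => simp [h7] at h5
  | true =>
    rw [h7, cond_true] at h5
    exact ⟨rfl, h5⟩

lemma psD_pos (a b c : ℕ) : 1 ≤ psD a b c := by
  have h1 := chkP_true
  rw [allB_iff] at h1
  have ha : m6 a ≤ 6 := by rw [m6_eq]; omega
  have hb : m6 b ≤ 6 := by rw [m6_eq]; omega
  have hc : m6 c ≤ 6 := by rw [m6_eq]; omega
  have h2 := h1 (49 * m6 a + 7 * m6 b + m6 c) (by omega)
  rw [Nat.ble_eq] at h2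
  exact h2

lemma topL : 5 * psD 0 6 6 + 7 * gaD 0 6 6 6 ≤ 700000 := by decide +kernel

lemma topR : psD 6 6 0 + 100000 ≤ gaD 6 6 6 0 := by decide +kernel

end Pool.Agent.Y962.BD
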