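import Pool.Agent.Y962.BD.TabL
import Pool.Agent.Y962.BD.CertU

/-! The finite check for the lower bound. -/

namespace Pool.Agent.Y962.BD

/-- depth of the site `k` of the profile `i`; the value `4` means: not present -/
def dep (i k : ℕ) : ℕ := fld 3 prT (Nat.add (Nat.mul 8 i) k)

/-- next profile after an update of the site `k` -/
def nxt (i k : ℕ) : ℕ := fld 12 tnT (Nat.add (Nat.mul 8 i) k)

/-- shift of the position (plus one) after an update of the site `k` -/
def shf (i k : ℕ) : ℕ := fld 3 tsT (Nat.add (Nat.mul 8 i) k)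

/-- the potential -/
def pot (i : ℕ) : ℕ := fld 18 tpT i

/-- increment of the level after an update of a site of depth `j` -/
def dM (j : ℕ) : ℕ := Nat.sub 1 j

/-- validity of the site `b` (in the coordinates of the next profile) of depth `j2` after an
update of the site `k` of depth `j` of the profile `i`; `s` is the shift plus one -/
def okS (i k j s b j2 : ℕ) : Bool :=
  cond (Nat.ble 4 j2) true
    (cond (Nat.beq (Nat.add b s) (Nat.succ k)) (Nat.ble (Nat.sub j 1) j2)
      (cond (cond (Nat.beq (Nat.add b s) k) true (Nat.beq (Nat.add b s) (Nat.add k 2)))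
        (cond (Nat.ble (Nat.add (dM j) j) j2) true
          (cond (Nat.ble 1 (Nat.add b s)) (cond (Nat.ble (Nat.add b s) 8)
            (cond (Nat.ble (dep i (Nat.sub (Nat.add b s) 1)) 3)
              (Nat.ble (Nat.add (dM j) (dep i (Nat.sub (Nat.add b s) 1))) j2) false) false) false))
        (cond (Nat.ble 1 (Nat.add b s)) (cond (Nat.ble (Nat.add b s) 8)
            (cond (Nat.ble (dep i (Nat.sub (Nat.add b s) 1)) 3)
              (Nat.ble (Nat.add (dM j) (dep i (Nat.sub (Nat.add b s) 1))) j2) false) false) false)))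

/-- check of one transition -/
def okT (i k j t s : ℕ) : Bool :=
  cond (Nat.ble (Nat.succ t) 2448)
    (cond (Nat.ble (pot i) (Nat.add (Nat.mul 100000 (dM j)) (pot t)))
      (allB 8 fun b => okS i k j s b (dep t b)) false) false

/-- check of all the transitions of a profile -/
def okI (i : ℕ) : Bool :=
  allB 8 fun k => cond (Nat.ble (dep i k) 3) (okT i k (dep i k) (nxt i k) (shf i k)) true

/-- increment of the Lyapunov function -/
def inc (i k : ℕ) : ℕ :=
  cond (Nat.ble (dep i k) 3)
    (Nat.sub (Nat.add (Nat.mul 100000 (dM (dep i k))) (pot (nxt i k))) (pot i)) 0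

/-- check of the drift and of the existence of a site of depth `0` -/
def okD (i : ℕ) : Bool :=
  cond (Nat.ble 191700 (Nat.add (Nat.add (Nat.add (inc i 0) (inc i 1)) (Nat.add (inc i 2) (inc i 3)))
    (Nat.add (Nat.add (inc i 4) (inc i 5)) (Nat.add (inc i 6) (inc i 7)))))
    (cond (allB 8 fun k => Nat.ble 1 (dep i k)) false true) false

/-- check of the profiles `48 a + b` with `b < 48` -/
def chkB (a : ℕ) : Bool :=
  allB 48 fun b => cond (okI (Nat.add (Nat.mul 48 a) b)) (okD (Nat.add (Nat.mul 48 a) b)) false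

set_option maxRecDepth 100000 in
lemma chkL_true : allB 51 chkB = true := by decide +kernel

lemma cond_and {a b : Bool} (h : cond a b false = true) : a = true ∧ b = true := by
  cases a <;> simp_all

lemma ok_all {i : ℕ} (hi : i < 2448) : okI i = true ∧ okD i = true := by
  have h1 := chkL_true
  rw [allB_iff] at h1
  have h2 := h1 (i / 48) (by omega)
  unfold chkB at h2
  rw [allB_iff] at h2
  have h3 := cond_and (h2 (i % 48) (by omega))
  have h4 : Nat.add (Nat.mul 48 (i / 48)) (i % 48) = i := by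
    show 48 * (i / 48) + i % 48 = i
    omega
  rwa [h4] at h3

lemma okT_of {i k : ℕ} (hi : i < 2448) (hk : k < 8) (hd : dep i k ≤ 3) : nxt i k < 2448 ∧
    pot i ≤ 100000 * dM (dep i k) + pot (nxt i k) ∧
    ∀ b < 8, okS i k (dep i k) (shf i k) b (dep (nxt i k) b) = true := by
  have h1 := (ok_all hi).1
  unfold okI at h1
  rw [allB_iff] at h1
  have h2 := h1 k hk
  have h3 : Nat.ble (dep i k) 3 = true := by rwa [Nat.ble_eq]
  rw [h3, cond_true] at h2
  unfold okT at h2
  obtain ⟨h4, h5⟩ := cond_and h2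
  obtain ⟨h6, h7⟩ := cond_and h5
  rw [Nat.ble_eq] at h4 h6
  rw [allB_iff] at h7
  exact ⟨h4, h6, h7⟩

lemma okD_of {i : ℕ} (hi : i < 2448) : 191700 ≤ ∑ k ∈ Finset.range 8, inc i k ∧
    ∃ k < 8, dep i k = 0 := by
  have h1 := (ok_all hi).2
  unfold okD at h1
  obtain ⟨h2, h3⟩ := cond_and h1
  rw [Nat.ble_eq] at h2
  constructor
  · simp only [Finset.sum_range_succ, Finset.sum_range_zero]
    have h4 : Nat.add (Nat.add (Nat.add (inc i 0) (inc i 1)) (Nat.add (inc i 2) (inc i 3)))
        (Nat.add (Nat.add (inc i 4) (inc i 5)) (Nat.add (inc i 6) (inc i 7)))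
        = ((inc i 0 + inc i 1) + (inc i 2 + inc i 3))
          + ((inc i 4 + inc i 5) + (inc i 6 + inc i 7)) := rfl
    rw [h4] at h2
    omega
  · by_contra hcon
    push Not at hcon
    have h4 : allB 8 (fun k => Nat.ble 1 (dep i k)) = true := by
      rw [allB_iff]
      intro k hk
      rw [Nat.ble_eq]
      have := hcon k hk
      omega
    rw [h4] at h3
    simp at h3

lemma okS_spec {i k j s b j2 : ℕ} (h : okS i k j s b j2 = true) (hj : j2 ≤ 3) :
    (b + s = k + 1 ∧ j - 1 ≤ j2) ∨ ((b + s = k ∨ b + s = k + 2) ∧ dM j + j ≤ j2) ∨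
    (1 ≤ b + s ∧ b + s ≤ 8 ∧ dep i (b + s - 1) ≤ 3 ∧ dM j + dep i (b + s - 1) ≤ j2) := by
  unfold okS at h
  have e1 : Nat.add b s = b + s := rfl
  have e2 : Nat.sub (b + s) 1 = b + s - 1 := rfl
  have e3 : Nat.sub j 1 = j - 1 := rfl
  have e4 : ∀ t, Nat.add (dM j) t = dM j + t := fun t => rfl
  have e5 : Nat.add k 2 = k + 2 := rfl
  have e6 : Nat.succ k = k + 1 := rfl
  rw [e1, e2, e3, e4, e4, e5, e6] at h
  have h0 : Nat.ble 4 j2 = false := by
    rw [← Bool.not_eq_true, Nat.ble_eq]
    omega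
  rw [h0, cond_false] at h
  have hC : cond (Nat.ble 1 (b + s)) (cond (Nat.ble (b + s) 8)
      (cond (Nat.ble (dep i (b + s - 1)) 3) (Nat.ble (dM j + dep i (b + s - 1)) j2) false)
      false) false = true → (1 ≤ b + s ∧ b + s ≤ 8 ∧ dep i (b + s - 1) ≤ 3 ∧
        dM j + dep i (b + s - 1) ≤ j2) := by
    intro h
    obtain ⟨h1, h2⟩ := cond_and h
    obtain ⟨h3, h4⟩ := cond_and h2
    obtain ⟨h5, h6⟩ := cond_and h4
    rw [Nat.ble_eq] at h1 h3 h5 h6
    exact ⟨h1, h3, h5, h6⟩
  cases hb1 : Nat.beq (b + s) (k + 1) with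
  | true =>
    rw [hb1, cond_true, Nat.ble_eq] at h
    exact Or.inl ⟨Nat.eq_of_beq_eq_true hb1, h⟩
  | false =>
    rw [hb1, cond_false] at h
    cases hb2 : cond (Nat.beq (b + s) k) true (Nat.beq (b + s) (k + 2)) with
    | true =>
      rw [hb2, cond_true] at h
      have hb3 : b + s = k ∨ b + s = k + 2 := by
        cases hb4 : Nat.beq (b + s) k with
        | true => exact Or.inl (Nat.eq_of_beq_eq_true hb4)
        | false =>
          rw [hb4, cond_false] at hb2
          exact Or.inr (Nat.eq_of_beq_eq_true hb2)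
      cases hb5 : Nat.ble (dM j + j) j2 with
      | true =>
        rw [Nat.ble_eq] at hb5
        exact Or.inr (Or.inl ⟨hb3, hb5⟩)
      | false =>
        rw [hb5, cond_false] at h
        exact Or.inr (Or.inr (hC h))
    | false =>
      rw [hb2, cond_false] at h
      exact Or.inr (Or.inr (hC h))

lemma dep_zero : dep 0 0 = 0 ∧ ∀ k < 8, k ≠ 0 → dep 0 k = 4 := by
  constructor
  · decide +kernel
  · intro k hk hk0
    interval_cases k
    · exact absurd rfl hk0
    all_goals decide +kernel

lemma shf_le (i k : ℕ) : shf i k ≤ 7 := by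
  unfold shf fld
  have h : Nat.sub (Nat.pow 2 3) 1 = 7 := rfl
  rw [h]
  exact Nat.and_le_right

lemma pot_le (i : ℕ) : pot i ≤ 262143 := by
  unfold pot fld
  have h : Nat.sub (Nat.pow 2 18) 1 = 262143 := rfl
  rw [h]
  exact Nat.and_le_right

end Pool.Agent.Y962.BD
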