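import Pool.Agent.Y962.BD.RealU
import Pool.Agent.W833.BD.SeqL

/-! Upper bound for the growth on the ring, started from the slope one. -/

namespace Pool.Agent.Y962.BD

open Pool.Agent.W833.BD MeasureTheory Filter Topology

/-- the site `k` -/
def st1 (k : ℤ) : V 1 := fun _ => k

lemma st1_apply (x : V 1) : st1 (x 0) = x := by
  funext i
  rw [Subsingleton.elim i 0]
  rfl

lemma st1_inj : Function.Injective st1 := fun a b h => congrFun h 0

lemma st1_stp (k : ℤ) (p : Fin 1 × Bool) : st1 k + stp p = st1 (k + if p.2 then 1 else -1) := by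
  obtain ⟨i, b⟩ := p
  funext j
  rw [Subsingleton.elim i 0, Subsingleton.elim j 0]
  simp [st1, stp]

lemma newh_st1 (f : Om 1) (k : ℤ) :
    newh f (st1 k) = nz (f (st1 (k - 1))) (f (st1 k)) (f (st1 (k + 1))) := by
  unfold nz
  apply le_antisymm
  · refine newh_le (le_max_left _ _) fun p => ?_
    rw [st1_stp]
    obtain ⟨i, b⟩ := p
    cases b
    · simp only [Bool.false_eq_true, if_false]
      rw [← sub_eq_add_neg]
      exact (le_max_left _ _).trans (le_max_right _ _)
    · simp only [if_true]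
      exact (le_max_right _ _).trans (le_max_right _ _)
  · refine max_le (add_one_le_newh f _) (max_le ?_ ?_)
    · have := nbr_le_newh f (st1 k) (0, false)
      rw [st1_stp] at this
      simpa [sub_eq_add_neg] using this
    · have := nbr_le_newh f (st1 k) (0, true)
      rw [st1_stp] at this
      simpa using this

/-- the window function -/
noncomputable def Fw (f : Om 1) : ℝ := Fz (f (st1 (-1))) (f (st1 0)) (f (st1 1))

/-- the auxiliary function -/
noncomputable def Gw (k : ℤ) (f : Om 1) : ℝ :=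
  Gz (f (st1 k)) (f (st1 (k + 1))) (f (st1 (k + 2))) (f (st1 (k + 3)))

lemma loc_Fw : Loc Fw :=
  ((loc_eval (st1 (-1))).comp₂ (loc_eval (st1 0)) Prod.mk).comp₂ (loc_eval (st1 1))
    (fun a b => Fz a.1 a.2 b)

lemma loc_Gw (k : ℤ) : Loc (Gw k) :=
  ((loc_eval (st1 k)).comp₂ (loc_eval (st1 (k + 1))) Prod.mk).comp₂
    ((loc_eval (st1 (k + 2))).comp₂ (loc_eval (st1 (k + 3))) Prod.mk)
    (fun a b => Gz a.1 a.2 b.1 b.2)

/-- the window -/
noncomputable def Sw : Finset (V 1) := {st1 (-1), st1 0, st1 1}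

lemma dep_Fw : DependsOn Fw (Sw : Set (V 1)) := by
  intro f g h
  unfold Fw
  rw [h (st1 (-1)) (by simp [Sw]), h (st1 0) (by simp [Sw]), h (st1 1) (by simp [Sw])]

lemma sum_Sw (h : V 1 → ℝ) : ∑ x ∈ Sw, h x = h (st1 (-1)) + (h (st1 0) + h (st1 1)) := by
  unfold Sw
  rw [Finset.sum_insert, Finset.sum_insert, Finset.sum_singleton]
  · simp only [Finset.mem_singleton]
    intro h'
    have := st1_inj h'
    omega
  · simp only [Finset.mem_insert, Finset.mem_singleton]
    rintro (h' | h') <;>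
    · have := st1_inj h'
      omega

lemma upd_st1_ne {a b : ℤ} (h : b ≠ a) (f : Om 1) : upd (st1 a) f (st1 b) = f (st1 b) :=
  upd_ne (fun h' => h (st1_inj h')) f

/-- the pointwise inequality -/
lemma gen_le (f : Om 1) : ∑ x ∈ Sw, (Fw (upd x f) - Fw f)
    ≤ 9792 / 10000 * Fw f + Gw (-1) f - 7 / 5 * Gw (-2) f := by
  rw [sum_Sw]
  have e1 : Fw (upd (st1 (-1)) f) = Fz (nz (f (st1 (-2))) (f (st1 (-1))) (f (st1 0)))
      (f (st1 0)) (f (st1 1)) := by
    unfold Fw
    rw [upd_same, upd_st1_ne (by norm_num), upd_st1_ne (by norm_num), newh_st1]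
    norm_num
  have e2 : Fw (upd (st1 0) f) = Fz (f (st1 (-1)))
      (nz (f (st1 (-1))) (f (st1 0)) (f (st1 1))) (f (st1 1)) := by
    unfold Fw
    rw [upd_same, upd_st1_ne (by norm_num), upd_st1_ne (by norm_num), newh_st1]
    norm_num
  have e3 : Fw (upd (st1 1) f) = Fz (f (st1 (-1))) (f (st1 0))
      (nz (f (st1 0)) (f (st1 1)) (f (st1 2))) := by
    unfold Fw
    rw [upd_same, upd_st1_ne (by norm_num), upd_st1_ne (by norm_num), newh_st1]
    norm_num
  have i1 := ineq1 (f (st1 (-2))) (f (st1 (-1))) (f (st1 0)) (f (st1 1))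
  have i2 := ineq2 (f (st1 (-1))) (f (st1 0)) (f (st1 1)) (f (st1 2))
  have g1 : Gw (-1) f = Gz (f (st1 (-1))) (f (st1 0)) (f (st1 1)) (f (st1 2)) := by
    unfold Gw
    norm_num
  have g2 : Gw (-2) f = Gz (f (st1 (-2))) (f (st1 (-1))) (f (st1 0)) (f (st1 1)) := by
    unfold Gw
    norm_num
  rw [e1, e2, e3, g1, g2]
  have e4 : Fw f = Fz (f (st1 (-1))) (f (st1 0)) (f (st1 1)) := rfl
  rw [e4]
  linarith

section

variable {N : ℕ} [NeZero N]

lemma int_Gw (n : ℕ) : ∫ f, Gw (-1) f ∂(Mn N n : Measure (Om 1))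
    = 7 / 5 * ∫ f, Gw (-2) f ∂(Mn N n : Measure (Om 1)) := by
  have h := integral_act (Sym.trans (N := N) (st1 (-1))) n (φ := Gw (-1)) (loc_Gw (-1)).measurable
  rw [← h, ← integral_const_mul]
  congr 1
  funext f
  have h1 : ∀ k : ℤ, (Sym.trans (N := N) (st1 (-1))).act f (st1 k) = f (st1 (k - 1)) + 1 := by
    intro k
    have e1 : (Sym.trans (N := N) (st1 (-1))).act f (st1 k)
        = f (st1 k + st1 (-1)) + - (st1 (-1) 0) := rfl
    have e2 : st1 k + st1 (-1) = st1 (k - 1) := by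
      funext i
      simp only [st1, Pi.add_apply]
      ring
    rw [e1, e2]
    simp [st1]
  unfold Gw
  rw [h1, h1, h1, h1, ← Gz_succ]
  norm_num

lemma int_gen (hN : 3 ≤ N) (n : ℕ) :
    ∑ c : Cl N 1, ∫ f, (Fw (updT c f) - Fw f) ∂(Mn N n : Measure (Om 1))
      ≤ 9792 / 10000 * ∫ f, Fw f ∂(Mn N n : Measure (Om 1)) := by
  have hinj : Set.InjOn (cls N) (Sw : Set (V 1)) := by
    refine (cls_injOn (N := N) (L := 1) (by omega)).mono ?_
    intro x hx
    rw [Finset.mem_coe] at hx ⊢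
    rw [mem_box]
    intro i
    unfold Sw at hx
    simp only [Finset.mem_insert, Finset.mem_singleton] at hx
    rcases hx with rfl | rfl | rfl <;> simp [st1]
  have hF : Measurable Fw := loc_Fw.measurable
  have h1 : ∑ c : Cl N 1, ∫ f, (Fw (updT c f) - Fw f) ∂(Mn N n : Measure (Om 1))
      = ∫ f, ∑ x ∈ Sw, (Fw (upd x f) - Fw f) ∂(Mn N n : Measure (Om 1)) := by
    rw [← integral_finsetSum]
    · congr 1
      funext f
      exact sum_cls hinj dep_Fw f
    · intro c _
      exact integrable_Mn n ((hF.comp (measurable_updT c)).sub hF)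
  rw [h1]
  have hG : ∀ k, Integrable (Gw k) (Mn N n : Measure (Om 1)) := fun k =>
    integrable_Mn n (loc_Gw k).measurable
  have hFi : Integrable Fw (Mn N n : Measure (Om 1)) := integrable_Mn n hF
  have h2 : ∫ f, ∑ x ∈ Sw, (Fw (upd x f) - Fw f) ∂(Mn N n : Measure (Om 1))
      ≤ ∫ f, (9792 / 10000 * Fw f + Gw (-1) f - 7 / 5 * Gw (-2) f)
        ∂(Mn N n : Measure (Om 1)) := by
    refine integral_mono ?_ ?_ gen_le
    · exact integrable_Mn n (loc_sum Sw fun x _ => (loc_Fw.upd x).comp₂ loc_Fw (· - ·)).measurable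
    · exact ((hFi.const_mul _).add (hG _)).sub ((hG _).const_mul _)
  refine h2.trans (le_of_eq ?_)
  have e1 : Integrable (fun f : Om 1 => 9792 / 10000 * Fw f + Gw (-1) f)
      (Mn N n : Measure (Om 1)) := (hFi.const_mul _).add (hG _)
  rw [integral_sub e1 ((hG _).const_mul _), integral_add (hFi.const_mul _) (hG _),
    integral_const_mul, integral_const_mul, int_Gw]
  ring

lemma Fw_bound (hN : 3 ≤ N) (n : ℕ) : ∫ f, Fw f ∂(Mn N n : Measure (Om 1))
    ≤ (1 + 9792 / 10000 / Fintype.card (Cl N 1)) ^ n * Fw f0 := by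
  induction n with
  | zero =>
    rw [integral_Mn_zero (φ := Fw)]
    simp
  | succ n ih =>
    have hkc0 : (0 : ℝ) < Fintype.card (Cl N 1) := kc_pos
    rw [integral_Mn_succ n loc_Fw.measurable]
    have h1 := int_gen hN n
    have hFi : Integrable Fw (Mn N n : Measure (Om 1)) := integrable_Mn n loc_Fw.measurable
    have h2 : ∀ c : Cl N 1, ∫ f, (Fw (updT c f) - Fw f) ∂(Mn N n : Measure (Om 1))
        = ∫ f, Fw (updT c f) ∂(Mn N n) - ∫ f, Fw f ∂(Mn N n) := fun c =>
      integral_sub (integrable_Mn n (loc_Fw.measurable.comp (measurable_updT c))) hFi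
    simp only [h2] at h1
    rw [Finset.sum_sub_distrib, Finset.sum_const, Finset.card_univ, nsmul_eq_mul] at h1
    have h3 : (Fintype.card (Cl N 1) : ℝ)⁻¹ * ∑ c : Cl N 1, ∫ f, Fw (updT c f) ∂(Mn N n)
        ≤ (1 + 9792 / 10000 / Fintype.card (Cl N 1)) * ∫ f, Fw f ∂(Mn N n) := by
      rw [inv_mul_le_iff₀ hkc0]
      have e1 : (Fintype.card (Cl N 1) : ℝ) *
          ((1 + 9792 / 10000 / Fintype.card (Cl N 1)) * ∫ f, Fw f ∂(Mn N n))
          = Fintype.card (Cl N 1) * ∫ f, Fw f ∂(Mn N n)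
            + 9792 / 10000 * ∫ f, Fw f ∂(Mn N n) := by
        field_simp
      rw [e1]
      linarith
    refine h3.trans ?_
    rw [pow_succ, mul_comm _ (1 + 9792 / 10000 / (Fintype.card (Cl N 1) : ℝ)), mul_assoc]
    exact mul_le_mul_of_nonneg_left ih (by positivity)

lemma log_ge : (42 / 125 : ℝ) ≤ Real.log (7 / 5) := by
  have h1 : Real.exp 42 ≤ (7 / 5 : ℝ) ^ 125 := by
    have h2 : Real.exp 42 = (Real.exp 1) ^ 42 := by
      rw [← Real.exp_nat_mul]
      norm_num
    rw [h2]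
    have h3 : Real.exp 1 ≤ 2.7182818286 := Real.exp_one_lt_d9.le
    calc (Real.exp 1) ^ 42 ≤ (2.7182818286 : ℝ) ^ 42 :=
          pow_le_pow_left₀ (Real.exp_pos 1).le h3 42
      _ ≤ (7 / 5 : ℝ) ^ 125 := by norm_num
  have h2 := Real.log_le_log (Real.exp_pos 42) h1
  rw [Real.log_exp, Real.log_pow] at h2
  push_cast at h2
  linarith

/-- The bound for the mean height on rings with at least three sites. -/
lemma en_le1 (hN : 3 ≤ N) : ∃ C : ℝ, 0 ≤ C ∧ ∀ n : ℕ,
    en N 1 n ≤ n * (2.9145 : ℝ) / Fintype.card (Cl N 1) + C := by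
  set θ : ℝ := Real.log (7 / 5) with hθ
  have hθ1 : 42 / 125 ≤ θ := log_ge
  have hθ0 : 0 < θ := by linarith
  refine ⟨Fw f0 / θ, ?_, fun n => ?_⟩
  · have h1 := Fz_ge ((f0 : Om 1) (st1 (-1))) ((f0 : Om 1) (st1 0)) ((f0 : Om 1) (st1 1))
    have h2 : (0 : ℝ) < (7 / 5 : ℝ) ^ ((f0 : Om 1) (st1 0)) := zpow_pos (by norm_num) _
    have h3 : 0 ≤ Fw f0 := by
      unfold Fw
      linarith
    positivity
  have hkc0 : (0 : ℝ) < Fintype.card (Cl N 1) := kc_pos
  set kc : ℝ := (Fintype.card (Cl N 1) : ℝ) with hkc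
  set s : ℝ := n * (9792 / 10000 / kc) with hs
  have hFw0 : 0 ≤ Fw f0 := by
    have h1 := Fz_ge ((f0 : Om 1) (st1 (-1))) ((f0 : Om 1) (st1 0)) ((f0 : Om 1) (st1 1))
    have h2 : (0 : ℝ) < (7 / 5 : ℝ) ^ ((f0 : Om 1) (st1 0)) := zpow_pos (by norm_num) _
    unfold Fw
    linarith
  have h1 : θ * en N 1 n ≤ ∫ f, (Real.exp (-s) * Fw f + (s - 1)) ∂(Mn N n : Measure (Om 1)) := by
    unfold en
    rw [← integral_const_mul]
    refine integral_mono ?_ ?_ ?_
    · exact (integrable_Mn n ((loc_eval 0).comp (fun k : ℤ => (k : ℝ))).measurable).const_mul _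
    · exact integrable_Mn n (loc_Fw.comp (fun r : ℝ => Real.exp (-s) * r + (s - 1))).measurable
    · intro f
      have h2 := Real.add_one_le_exp (θ * (f 0 : ℝ) - s)
      have h3 : Real.exp (-s) * Real.exp (θ * f 0) = Real.exp (θ * (f 0 : ℝ) - s) := by
        rw [← Real.exp_add]
        congr 1
        ring
      have h4 : Real.exp (θ * f 0) = (7 / 5 : ℝ) ^ (f 0) := by
        rw [hθ, mul_comm, ← Real.rpow_intCast, Real.rpow_def_of_pos (by norm_num), mul_comm]
      have h5 : Real.exp (θ * f 0) ≤ Fw f := by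
        rw [h4]
        exact Fz_ge _ _ _
      have h6 : Real.exp (-s) * Real.exp (θ * f 0) ≤ Real.exp (-s) * Fw f :=
        mul_le_mul_of_nonneg_left h5 (Real.exp_pos _).le
      simp only
      linarith
  have hFi : Integrable Fw (Mn N n : Measure (Om 1)) := integrable_Mn n loc_Fw.measurable
  rw [integral_add_c (hFi.const_mul _), integral_const_mul] at h1
  have h3 := Fw_bound hN n
  have h4 : (1 + 9792 / 10000 / kc) ^ n ≤ Real.exp s := by
    calc (1 + 9792 / 10000 / kc) ^ n ≤ (Real.exp (9792 / 10000 / kc)) ^ n := by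
          refine pow_le_pow_left₀ (by positivity) ?_ n
          rw [add_comm]
          exact Real.add_one_le_exp _
      _ = Real.exp s := by rw [← Real.exp_nat_mul]
  have h5 : Real.exp (-s) * ∫ f, Fw f ∂(Mn N n : Measure (Om 1)) ≤ Fw f0 := by
    calc Real.exp (-s) * ∫ f, Fw f ∂(Mn N n : Measure (Om 1))
        ≤ Real.exp (-s) * (Real.exp s * Fw f0) := by
          refine mul_le_mul_of_nonneg_left (h3.trans ?_) (Real.exp_pos _).le
          exact mul_le_mul_of_nonneg_right h4 hFw0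
      _ = Fw f0 := by rw [← mul_assoc, ← Real.exp_add]; simp
  have h6 : θ * en N 1 n ≤ s + Fw f0 := by linarith
  have h7 : en N 1 n ≤ (s + Fw f0) / θ := by
    rw [le_div_iff₀ hθ0]
    linarith
  have h8 : s / θ ≤ n * (2.9145 : ℝ) / kc := by
    rw [hs, div_le_div_iff₀ hθ0 hkc0]
    have hn : (0 : ℝ) ≤ n := Nat.cast_nonneg n
    have e1 : (n : ℝ) * (9792 / 10000 / kc) * kc = n * (9792 / 10000) := by field_simp
    rw [e1]
    nlinarith
  have h9 : (s + Fw f0) / θ = s / θ + Fw f0 / θ := add_div _ _ _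
  linarith

end

end Pool.Agent.Y962.BD
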