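import Pool.Agent.Y962.BD.CertL
import Pool.Agent.Y962.BD.Up
import Pool.Agent.W833.BD.MainIneq

/-! The finite exploration chain for the lower bound of the growth rate. -/

namespace Pool.Agent.Y962.BD

open Pool.Agent.W833.BD MeasureTheory Filter Topology

/-- the state of the chain: level, position, profile -/
structure CS where
  M : ℤ
  p : ℤ
  i : ℕ

/-- one step of the chain -/
def stepS (s : CS) (x : ℤ) : CS :=
  if 0 ≤ x - s.p ∧ (x - s.p).toNat < 8 ∧ dep s.i (x - s.p).toNat ≤ 3 then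
    ⟨s.M + dM (dep s.i (x - s.p).toNat), s.p + (shf s.i (x - s.p).toNat : ℤ) - 1,
      nxt s.i (x - s.p).toNat⟩
  else s

lemma stepS_alive {s : CS} {k : ℕ} (hk : k < 8) (hd : dep s.i k ≤ 3) :
    stepS s (s.p + k) = ⟨s.M + dM (dep s.i k), s.p + (shf s.i k : ℤ) - 1, nxt s.i k⟩ := by
  have h1 : s.p + (k : ℤ) - s.p = k := by ring
  unfold stepS
  rw [h1, Int.toNat_natCast, if_pos ⟨by positivity, hk, hd⟩]

lemma stepS_dead {s : CS} {k : ℕ} (hd : ¬ dep s.i k ≤ 3) : stepS s (s.p + k) = s := by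
  have h1 : s.p + (k : ℤ) - s.p = k := by ring
  unfold stepS
  rw [h1, Int.toNat_natCast, if_neg (fun h => hd h.2.2)]

lemma stepS_cases (s : CS) (x : ℤ) :
    (∃ k : ℕ, k < 8 ∧ dep s.i k ≤ 3 ∧ x = s.p + k) ∨ stepS s x = s := by
  by_cases h : 0 ≤ x - s.p ∧ (x - s.p).toNat < 8 ∧ dep s.i (x - s.p).toNat ≤ 3
  · left
    refine ⟨_, h.2.1, h.2.2, ?_⟩
    have := Int.toNat_of_nonneg h.1
    omega
  · right
    unfold stepS
    rw [if_neg h]

lemma stepS_lt {s : CS} (hi : s.i < 2448) (x : ℤ) : (stepS s x).i < 2448 := by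
  rcases stepS_cases s x with ⟨k, hk, hd, rfl⟩ | h
  · rw [stepS_alive hk hd]
    exact (okT_of hi hk hd).1
  · rw [h]
    exact hi

/-- the functional `Φ` dominates the one described by the state -/
def VS (ε : ℤ) (Φ : Om 1 → ℝ) (s : CS) : Prop :=
  s.i < 2448 ∧ ∀ (w : Om 1) (k : ℕ), k < 8 → dep s.i k ≤ 3 →
    (s.M : ℝ) - dep s.i k + w (st1 (ε * (s.p + k))) ≤ Φ w

lemma VS_step {ε : ℤ} (hε : ε = 1 ∨ ε = -1) {Φ : Om 1 → ℝ} {s : CS} (h : VS ε Φ s) (x : V 1) :
    VS ε (fun f => Φ (upd x f)) (stepS s (ε * x 0)) := by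
  have hεε : ε * ε = 1 := by rcases hε with rfl | rfl <;> norm_num
  have hle : ∀ (w : Om 1) y, (w y : ℝ) ≤ upd x w y := fun w y => by exact_mod_cast le_upd x w y
  rcases stepS_cases s (ε * x 0) with ⟨k, hk, hd, hx⟩ | h'
  · rw [hx, stepS_alive hk hd]
    have hx' : x = st1 (ε * (s.p + k)) := by
      rw [← hx, ← mul_assoc, hεε, one_mul, st1_apply]
    obtain ⟨h1, -, h3⟩ := okT_of h.1 hk hd
    refine ⟨h1, fun w b hb hdb => ?_⟩
    dsimp only at hdb ⊢
    have hk' := h.2 (upd x w) k hk hd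
    rw [← hx', upd_same] at hk'
    have hs := okS_spec (h3 b hb) hdb
    rcases hs with ⟨h4, h5⟩ | ⟨h4, h5⟩ | ⟨h4, h4', h4'', h5⟩
    · have e1 : s.p + (shf s.i k : ℤ) - 1 + b = s.p + k := by
        have : (b : ℤ) + shf s.i k = k + 1 := by exact_mod_cast h4
        omega
      rw [e1, ← hx']
      have h6 : (w x : ℝ) + 1 ≤ newh w x := by exact_mod_cast add_one_le_newh w x
      have h7 : (dM (dep s.i k) : ℝ) + dep s.i k ≤ dep (nxt s.i k) b + 1 := by
        have : dM (dep s.i k) + dep s.i k ≤ dep (nxt s.i k) b + 1 := by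
          have : dM (dep s.i k) = 1 - dep s.i k := rfl
          omega
        exact_mod_cast this
      push_cast
      linarith
    · have h6 : (w (st1 (ε * (s.p + (shf s.i k : ℤ) - 1 + b))) : ℝ) ≤ newh w x := by
        have h8 := newh_st1 w (ε * (s.p + k))
        rw [← hx'] at h8
        have h9 : ε * (s.p + (shf s.i k : ℤ) - 1 + b) = ε * (s.p + k) - 1 ∨
            ε * (s.p + (shf s.i k : ℤ) - 1 + b) = ε * (s.p + k) + 1 := by
          have h10 : (b : ℤ) + shf s.i k = k ∨ (b : ℤ) + shf s.i k = k + 2 := by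
            rcases h4 with h4 | h4
            · left; exact_mod_cast h4
            · right; exact_mod_cast h4
          rcases hε with rfl | rfl <;> rcases h10 with h10 | h10
          · left; linarith
          · right; linarith
          · right; linarith
          · left; linarith
        rw [h8]
        unfold nz
        rcases h9 with h9 | h9
        · rw [h9]
          exact_mod_cast (le_max_left _ _).trans (le_max_right _ _)
        · rw [h9]
          exact_mod_cast (le_max_right _ _).trans (le_max_right _ _)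
      have h7 : (dM (dep s.i k) : ℝ) + dep s.i k ≤ dep (nxt s.i k) b := by exact_mod_cast h5
      push_cast
      linarith
    · have e1 : s.p + (shf s.i k : ℤ) - 1 + b = s.p + ((b + shf s.i k - 1 : ℕ) : ℤ) := by
        omega
      rw [e1]
      have h6 := h.2 (upd x w) (b + shf s.i k - 1) (by omega) h4''
      have h7 := hle w (st1 (ε * (s.p + ((b + shf s.i k - 1 : ℕ) : ℤ))))
      have h8 : (dM (dep s.i k) : ℝ) + dep s.i (b + shf s.i k - 1) ≤ dep (nxt s.i k) b := by
        exact_mod_cast h5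
      push_cast
      linarith
  · rw [h']
    refine ⟨h.1, fun w k hk hd => ?_⟩
    have h1 := h.2 (upd x w) k hk hd
    have h2 := hle w (st1 (ε * (s.p + k)))
    linarith

/-- the initial state -/
def cs0 : CS := ⟨0, 0, 0⟩

lemma VS_cs0 (ε : ℤ) : VS ε (fun f : Om 1 => (f 0 : ℝ)) cs0 := by
  refine ⟨by norm_num [cs0], fun w k hk hd => ?_⟩
  have hk0 : k = 0 := by
    by_contra hk0
    have := dep_zero.2 k hk hk0
    simp only [cs0] at hd
    omega
  subst hk0
  have e1 : st1 (ε * (cs0.p + ((0 : ℕ) : ℤ))) = 0 := by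
    funext i
    simp [st1, cs0]
  rw [e1]
  simp [cs0, dep_zero.1]

open Classical in
/-- an index of depth `0` -/
noncomputable def top (i : ℕ) : ℕ := if h : ∃ k < 8, dep i k = 0 then h.choose else 0

lemma top_spec {i : ℕ} (hi : i < 2448) : top i < 8 ∧ dep i (top i) = 0 := by
  have h := (okD_of hi).2
  unfold top
  rw [dif_pos h]
  exact h.choose_spec

/-- the site at the top -/
noncomputable def siteS (ε : ℤ) (s : CS) : V 1 := st1 (ε * (s.p + top s.i))

lemma le_of_VS {ε : ℤ} {Φ : Om 1 → ℝ} {s : CS} (h : VS ε Φ s) (w : Om 1) :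
    (s.M : ℝ) + w (siteS ε s) ≤ Φ w := by
  obtain ⟨h1, h2⟩ := top_spec h.1
  have := h.2 w (top s.i) h1 (by omega)
  rw [h2] at this
  unfold siteS
  simpa using this

/-! ## Growth -/

/-- the Lyapunov function -/
noncomputable def gS (s : CS) : ℝ := s.M + (pot s.i : ℝ) / 100000

lemma gS_alive {s : CS} (hi : s.i < 2448) {k : ℕ} (hk : k < 8) :
    gS (stepS s (s.p + k)) - gS s = (inc s.i k : ℝ) / 100000 := by
  by_cases hd : dep s.i k ≤ 3
  · have h1 := (okT_of hi hk hd).2.1
    have h2 : inc s.i k = 100000 * dM (dep s.i k) + pot (nxt s.i k) - pot s.i := by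
      have h3 : Nat.ble (dep s.i k) 3 = true := by rwa [Nat.ble_eq]
      unfold inc
      rw [h3, cond_true]
      rfl
    rw [stepS_alive hk hd, h2, Nat.cast_sub h1]
    unfold gS
    push_cast
    ring
  · have h3 : Nat.ble (dep s.i k) 3 = false := by
      rw [← Bool.not_eq_true, Nat.ble_eq]
      exact hd
    rw [stepS_dead hd]
    unfold inc
    rw [h3, cond_false]
    simp

lemma gS_mono {s : CS} (hi : s.i < 2448) (x : ℤ) : 0 ≤ gS (stepS s x) - gS s := by
  rcases stepS_cases s x with ⟨k, hk, hd, rfl⟩ | h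
  · rw [gS_alive hi hk]
    positivity
  · rw [h, sub_self]

/-- the letters which act -/
noncomputable def Al (ε : ℤ) (s : CS) : Finset (V 1) :=
  (Finset.range 8).image (fun k : ℕ => st1 (ε * (s.p + k)))

lemma inj_Al {ε : ℤ} (hε : ε = 1 ∨ ε = -1) (s : CS) :
    Function.Injective (fun k : ℕ => st1 (ε * (s.p + k))) := by
  intro a b h
  have h1 := st1_inj h
  rcases hε with rfl | rfl <;> omega

lemma drift1 {ε : ℤ} (hε : ε = 1 ∨ ε = -1) {s : CS} (hi : s.i < 2448) {L : ℕ}
    (hL : |(s.p : ℝ)| + 8 ≤ L) :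
    (1.917 : ℝ) ≤ ∑ x ∈ box 1 L, (gS (stepS s (ε * x 0)) - gS s) := by
  have hεε : ε * ε = 1 := by rcases hε with rfl | rfl <;> norm_num
  have hsub : Al ε s ⊆ box 1 L := by
    intro x hx
    unfold Al at hx
    rw [Finset.mem_image] at hx
    obtain ⟨k, hk, rfl⟩ := hx
    rw [Finset.mem_range] at hk
    rw [mem_box]
    intro i
    have h1 : |s.p| + 8 ≤ (L : ℤ) := by exact_mod_cast hL
    show |ε * (s.p + k)| ≤ (L : ℤ)
    have h2 := abs_le.1 (le_refl |s.p|)
    rw [abs_le]
    rcases hε with rfl | rfl <;> constructor <;> omega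
  have h1 : ∑ x ∈ Al ε s, (gS (stepS s (ε * x 0)) - gS s)
      ≤ ∑ x ∈ box 1 L, (gS (stepS s (ε * x 0)) - gS s) :=
    Finset.sum_le_sum_of_subset_of_nonneg hsub fun x _ _ => gS_mono hi _
  refine le_trans ?_ h1
  unfold Al
  rw [Finset.sum_image (fun a _ b _ h => inj_Al hε s h)]
  have h2 : ∀ k ∈ Finset.range 8, gS (stepS s (ε * (st1 (ε * (s.p + k))) 0)) - gS s
      = (inc s.i k : ℝ) / 100000 := by
    intro k hk
    have e1 : ε * (st1 (ε * (s.p + (k : ℤ)))) 0 = s.p + k := by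
      show ε * (ε * (s.p + k)) = _
      rw [← mul_assoc, hεε, one_mul]
    rw [e1]
    exact gS_alive hi (Finset.mem_range.1 hk)
  rw [Finset.sum_congr rfl h2, ← Finset.sum_div]
  have h3 : (191700 : ℝ) ≤ ∑ k ∈ Finset.range 8, (inc s.i k : ℝ) := by
    exact_mod_cast (okD_of hi).1
  rw [le_div_iff₀ (by norm_num)]
  linarith

lemma drift2 {ε : ℤ} (hε : ε = 1 ∨ ε = -1) {s : CS} (hi : s.i < 2448) {L : ℕ} (hL0 : 0 < L) :
    (1.917 : ℝ) * (1 - (|(s.p : ℝ)| + 8) / L)
      ≤ ∑ x ∈ box 1 L, (gS (stepS s (ε * x 0)) - gS s) := by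
  have hL0' : (0 : ℝ) < L := by exact_mod_cast hL0
  by_cases hL : |(s.p : ℝ)| + 8 ≤ L
  · refine le_trans ?_ (drift1 hε hi hL)
    have : 0 ≤ (|(s.p : ℝ)| + 8) / L := by positivity
    nlinarith
  · push Not at hL
    refine le_trans ?_ (Finset.sum_nonneg fun x _ => gS_mono hi _)
    apply mul_nonpos_of_nonneg_of_nonpos (by norm_num)
    rw [sub_nonpos, le_div_iff₀ hL0']
    linarith

lemma driftP {ε : ℤ} (hε : ε = 1 ∨ ε = -1) (s : CS) (L : ℕ) :
    ∑ x ∈ box 1 L, (|((stepS s (ε * x 0)).p : ℝ)| - |(s.p : ℝ)|) ≤ 64 := by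
  classical
  have hεε : ε * ε = 1 := by rcases hε with rfl | rfl <;> norm_num
  have h1 : ∀ x ∈ box 1 L, |((stepS s (ε * x 0)).p : ℝ)| - |(s.p : ℝ)|
      ≤ if x ∈ Al ε s then 8 else 0 := by
    intro x _
    rcases stepS_cases s (ε * x 0) with ⟨k, hk, hd, hx⟩ | h'
    · have hx' : x = st1 (ε * (s.p + k)) := by
        rw [← hx, ← mul_assoc, hεε, one_mul, st1_apply]
      have hmem : x ∈ Al ε s := by
        unfold Al
        rw [Finset.mem_image]
        exact ⟨k, Finset.mem_range.2 hk, hx'.symm⟩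
      rw [if_pos hmem, hx, stepS_alive hk hd]
      have h2 := shf_le s.i k
      have h3 : |(((s.p + (shf s.i k : ℤ) - 1 : ℤ)) : ℝ)| ≤ |(s.p : ℝ)| + 8 := by
        have h4 : |s.p + (shf s.i k : ℤ) - 1| ≤ |s.p| + 8 := by
          have h5 := abs_le.1 (le_refl |s.p|)
          rw [abs_le]
          constructor <;> omega
        exact_mod_cast h4
      dsimp only
      linarith
    · rw [h', sub_self]
      split_ifs <;> norm_num
  refine (Finset.sum_le_sum h1).trans ?_
  rw [← Finset.sum_filter, Finset.sum_const, nsmul_eq_mul]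
  have h2 : ((box 1 L).filter (fun x => x ∈ Al ε s)).card ≤ 8 := by
    refine (Finset.card_le_card (t := Al ε s) ?_).trans ?_
    · intro x hx
      exact (Finset.mem_filter.1 hx).2
    · unfold Al
      exact Finset.card_image_le.trans (by simp)
  have h3 : (((box 1 L).filter (fun x => x ∈ Al ε s)).card : ℝ) ≤ 8 := by exact_mod_cast h2
  linarith

/-- Linear growth of a function with a drift. -/
lemma Av_growth {σ : Type*} {tr : σ → V 1 → σ} {L : ℕ} (hL0 : 0 < L) (I : σ → Prop)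
    (hI : ∀ s x, I s → I (tr s x)) {g P : σ → ℝ} {c D E : ℝ} (hc : 0 ≤ c) (hD : 0 ≤ D)
    (h1 : ∀ s, I s → c * (1 - (P s + E) / L) ≤ ∑ x ∈ box 1 L, (g (tr s x) - g s))
    (h2 : ∀ s, I s → ∑ x ∈ box 1 L, (P (tr s x) - P s) ≤ D) (n : ℕ) : ∀ s, I s →
    g s + n * (c / (box 1 L).card) - (c / ((box 1 L).card * L)) *
      (n * (P s + E) + D * (n : ℝ) ^ 2 / (box 1 L).card)
      ≤ (Av (box 1 L) tr)^[n] g s := by
  have hcard : (0 : ℝ) < (box 1 L).card := by exact_mod_cast card_box_pos L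
  have hL0' : (0 : ℝ) < L := by exact_mod_cast hL0
  set B : ℝ := ((box 1 L).card : ℝ) with hB
  induction n with
  | zero => intro s _; simp
  | succ n ih =>
    intro s hs
    rw [Function.iterate_succ_apply']
    have h3 : B⁻¹ * ∑ x ∈ box 1 L, (g (tr s x) + n * (c / B) - (c / (B * L)) *
        (n * (P (tr s x) + E) + D * (n : ℝ) ^ 2 / B))
        ≤ Av (box 1 L) tr ((Av (box 1 L) tr)^[n] g) s := by
      rw [Av]
      refine mul_le_mul_of_nonneg_left ?_ (by positivity)
      exact Finset.sum_le_sum fun x _ => ih _ (hI s x hs)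
    refine le_trans ?_ h3
    have h4 : ∑ x ∈ box 1 L, (g (tr s x) + n * (c / B) - (c / (B * L)) *
        (n * (P (tr s x) + E) + D * (n : ℝ) ^ 2 / B))
        = ∑ x ∈ box 1 L, (g (tr s x) - g s) - (c / (B * L)) * n *
          ∑ x ∈ box 1 L, (P (tr s x) - P s) + B *
          (g s + n * (c / B) - (c / (B * L)) * (n * (P s + E) + D * (n : ℝ) ^ 2 / B)) := by
      have hk : B * (g s + n * (c / B) - (c / (B * L)) * (n * (P s + E) + D * (n : ℝ) ^ 2 / B))
          = ∑ _x ∈ box 1 L,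
          (g s + n * (c / B) - (c / (B * L)) * (n * (P s + E) + D * (n : ℝ) ^ 2 / B)) := by
        rw [Finset.sum_const, nsmul_eq_mul]
      rw [hk, Finset.mul_sum, ← Finset.sum_sub_distrib, ← Finset.sum_add_distrib]
      exact Finset.sum_congr rfl fun x _ => by ring
    have h5 := h1 s hs
    have h6 : (c / (B * L)) * n * ∑ x ∈ box 1 L, (P (tr s x) - P s) ≤ (c / (B * L)) * n * D :=
      mul_le_mul_of_nonneg_left (h2 s hs) (by positivity)
    rw [h4, le_inv_mul_iff₀ hcard]
    have h7 : B * (g s + ((n + 1 : ℕ) : ℝ) * (c / B) - (c / (B * L)) *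
        (((n + 1 : ℕ) : ℝ) * (P s + E) + D * (((n + 1 : ℕ) : ℝ)) ^ 2 / B))
        = B * (g s + n * (c / B) - (c / (B * L)) * (n * (P s + E) + D * (n : ℝ) ^ 2 / B))
          + c * (1 - (P s + E) / L) - (c / (B * L)) * n * D
          - (c / (B * L)) * D * (n + 1) := by
      push_cast
      field_simp
      ring
    rw [h7]
    have h8 : 0 ≤ (c / (B * L)) * D * (n + 1) := by positivity
    linarith

/-- Linear growth of the level of the chain. -/
lemma Av_level_ge {ε : ℤ} (hε : ε = 1 ∨ ε = -1) {L : ℕ} (hL0 : 0 < L) (T : ℕ) :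
    1.917 * T - 1.917 * (8 * T + 64 * T ^ 2) / L - 3
      ≤ (Av (box 1 L) (fun s x => stepS s (ε * x 0)))^[T * (box 1 L).card]
        (fun s => (s.M : ℝ)) cs0 := by
  have hcard : (0 : ℝ) < (box 1 L).card := by exact_mod_cast card_box_pos L
  have hL0' : (0 : ℝ) < L := by exact_mod_cast hL0
  set n := T * (box 1 L).card with hn
  have h0 : cs0.i < 2448 := by norm_num [cs0]
  have h1 := Av_growth (tr := fun s x => stepS s (ε * x 0)) hL0 (fun s : CS => s.i < 2448)
    (fun s x h => stepS_lt h _) (g := gS) (P := fun s => |(s.p : ℝ)|) (c := 1.917) (D := 64)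
    (E := 8) (by norm_num) (by norm_num) (fun s hs => drift2 hε hs hL0)
    (fun s _ => driftP hε s L) n cs0 h0
  have h2 : (Av (box 1 L) (fun s x => stepS s (ε * x 0)))^[n] gS cs0
      ≤ (Av (box 1 L) (fun s x => stepS s (ε * x 0)))^[n] (fun s => (s.M : ℝ) + 3) cs0 := by
    refine Av_mono (fun s => ?_) n _
    unfold gS
    have h3 : (pot s.i : ℝ) ≤ 262143 := by exact_mod_cast pot_le s.i
    have h4 : (pot s.i : ℝ) / 100000 ≤ 3 := by
      rw [div_le_iff₀ (by norm_num)]
      linarith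
    linarith
  have h3 : (Av (box 1 L) (fun (s : CS) x => stepS s (ε * x 0)))^[n] (fun s => (s.M : ℝ) + 3) cs0
      = (Av (box 1 L) (fun s x => stepS s (ε * x 0)))^[n] (fun s => (s.M : ℝ)) cs0 + 3 := by
    rw [Av_add]
    congr 1
    exact Av_const (Finset.card_pos.1 (card_box_pos L)) 3 n _
  have h4 : 0 ≤ gS cs0 := by
    unfold gS
    simp only [cs0, Int.cast_zero, zero_add]
    positivity
  have h5 : (n : ℝ) * (1.917 / (box 1 L).card) = 1.917 * T := by
    rw [hn]
    push_cast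
    field_simp
  have h6 : 1.917 / (((box 1 L).card : ℝ) * L) *
      ((n : ℝ) * (|(cs0.p : ℝ)| + 8) + 64 * (n : ℝ) ^ 2 / (box 1 L).card)
      = 1.917 * (8 * T + 64 * T ^ 2) / L := by
    have e1 : |(cs0.p : ℝ)| = 0 := by simp [cs0]
    rw [e1, hn]
    push_cast
    field_simp
    ring
  rw [h5, h6] at h1
  linarith

end Pool.Agent.Y962.BD
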