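import Pool.Agent.Y962.BD.Up

/-! The sequence of approximating laws in dimension one. -/

namespace Pool.Agent.Y962.BD

open Pool.Agent.W833.BD MeasureTheory Filter Topology
open scoped ENNReal

section

variable {N : ℕ} [NeZero N]

/-- the height functions which are at most `n` above the slope one -/
def Gs (n : ℕ) : Set (Om 1) := {f | ∀ y : V 1, f y ≤ y 0 + n}

lemma measurable_Gs (n : ℕ) : MeasurableSet (Gs n) := by
  have h : Gs n = ⋂ y : V 1, (fun f : Om 1 => f y) ⁻¹' {k : ℤ | k ≤ y 0 + n} := by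
    ext f
    simp [Gs]
  rw [h]
  exact MeasurableSet.iInter fun y => measurable_pi_apply y (Set.to_countable _).measurableSet

lemma Gs_step {n : ℕ} (c : Cl N 1) {f : Om 1} (h : f ∈ Gs n) : updT c f ∈ Gs (n + 1) := by
  intro y
  have h1 : newh f y ≤ y 0 + n + 1 := by
    refine newh_le ?_ fun p => ?_
    · have := h y
      omega
    · have h2 := h (y + stp p)
      have h3 := stp_apply_abs_le p 0
      rw [abs_le] at h3
      simp only [Pi.add_apply] at h2
      omega
  have h2 := h y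
  unfold updT
  push_cast
  split_ifs <;> omega

lemma Gs_null (n : ℕ) : (Mn N n : Measure (Om 1)) (Gs n)ᶜ = 0 := by
  induction n with
  | zero =>
    rw [Mn_zero, Measure.dirac_apply' _ (measurable_Gs 0).compl]
    simp [Gs, f0]
  | succ n ih =>
    rw [Mn_succ]
    simp only [Measure.smul_apply, Measure.coe_finsetSum, Finset.sum_apply, smul_eq_mul]
    refine mul_eq_zero_of_right _ (Finset.sum_eq_zero fun c _ => ?_)
    rw [Measure.map_apply (measurable_updT c) (measurable_Gs (n + 1)).compl]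
    refine measure_mono_null ?_ ih
    intro f hf hf'
    exact hf (Gs_step c hf')

lemma en_le_triv (n : ℕ) : en N 1 n ≤ n := by
  have h1 : ∀ᵐ f ∂(Mn N n : Measure (Om 1)), f ∈ Gs n := by
    rw [ae_iff]
    exact Gs_null n
  have h2 : ∫ f : Om 1, ((f 0 : ℤ) : ℝ) ∂(Mn N n : Measure (Om 1))
      ≤ ∫ _, (n : ℝ) ∂(Mn N n : Measure (Om 1)) := by
    refine integral_mono_ae ?_ (integrable_const _) ?_
    · exact integrable_Mn n ((loc_eval 0).comp (fun k : ℤ => (k : ℝ))).measurable
    · filter_upwards [h1] with f hf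
      have := hf 0
      simp only [Pi.zero_apply, zero_add] at this
      exact_mod_cast this
  unfold en
  refine h2.trans (le_of_eq ?_)
  simp

lemma card_Cl : Fintype.card (Cl N 1) = N := by
  simp [Cl, ZMod.card]

/-- The bound for the mean height on all rings. -/
lemma en_le_all : ∃ C : ℝ, 0 ≤ C ∧ ∀ n : ℕ,
    en N 1 n ≤ n * (2.9145 : ℝ) / Fintype.card (Cl N 1) + C := by
  by_cases hN : 3 ≤ N
  · exact en_le1 hN
  · refine ⟨0, le_rfl, fun n => ?_⟩
    rw [add_zero, card_Cl]
    have hN0 : (0 : ℝ) < N := by exact_mod_cast Nat.pos_of_ne_zero (NeZero.ne N)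
    have hN2 : (N : ℝ) ≤ 2 := by
      have : N ≤ 2 := by omega
      exact_mod_cast this
    have hn : (0 : ℝ) ≤ n := Nat.cast_nonneg n
    rw [le_div_iff₀ hN0]
    have h1 := en_le_triv (N := N) n
    have h2 : en N 1 n * N ≤ n * N := mul_le_mul_of_nonneg_right h1 hN0.le
    have h3 : (n : ℝ) * N ≤ n * 2 := mul_le_mul_of_nonneg_left hN2 hn
    linarith

/-- a good time -/
lemma exists_time1 (N : ℕ) [NeZero N] : ∃ m : ℕ, 0 < m ∧ N * Fintype.card (Cl N 1) ≤ m ∧
    Fintype.card (Cl N 1) * en N 1 m ≤ 2.915 * m ∧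
    Fintype.card (Cl N 1) * (en N 1 (m + 1) - en N 1 m) ≤ 2 * 2.915 := by
  obtain ⟨C, hC0, hC⟩ := en_le_all (N := N)
  set kc := Fintype.card (Cl N 1) with hkc
  have hkc0 : (0 : ℝ) < kc := kc_pos
  obtain ⟨M, hM⟩ := exists_nat_gt (2000 * C * kc)
  set m0 := N * kc + M + 1 with hm0
  have hgood : ∀ m : ℕ, m0 ≤ m → kc * en N 1 m ≤ 2.915 * m := by
    intro m hm
    have h1 := hC m
    have h2 : (kc : ℝ) * en N 1 m ≤ kc * (m * (2.9145 : ℝ) / kc + C) :=
      mul_le_mul_of_nonneg_left h1 hkc0.le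
    have h3 : (kc : ℝ) * (m * (2.9145 : ℝ) / kc + C) = 2.9145 * m + C * kc := by
      field_simp
    have h4 : (M : ℝ) ≤ m := by
      have : M ≤ m := by omega
      exact_mod_cast this
    rw [h3] at h2
    linarith
  by_contra hcon
  push Not at hcon
  have hinc : ∀ m : ℕ, m0 ≤ m → 2 * 2.915 / (kc : ℝ) ≤ en N 1 (m + 1) - en N 1 m := by
    intro m hm
    have h1 := hcon m (by omega) (by omega) (hgood m hm)
    rw [div_le_iff₀ hkc0]
    linarith
  have hsum : ∀ j : ℕ, j * (2 * 2.915 / (kc : ℝ)) ≤ en N 1 (m0 + j) - en N 1 m0 := by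
    intro j
    induction j with
    | zero => simp
    | succ j ih =>
      have h1 := hinc (m0 + j) (by omega)
      push_cast
      rw [← add_assoc]
      linarith
  have h3 := hsum (m0 + 1)
  have h4 := hgood (m0 + (m0 + 1)) (by omega)
  have h5 := en_nonneg (N := N) (d := 1) m0
  have h6 : (kc : ℝ) * (((m0 + 1 : ℕ) : ℝ) * (2 * 2.915 / (kc : ℝ)))
      = 2 * 2.915 * ((m0 : ℝ) + 1) := by
    push_cast
    field_simp
  have h7 : (kc : ℝ) * (((m0 + 1 : ℕ) : ℝ) * (2 * 2.915 / (kc : ℝ)))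
      ≤ kc * (en N 1 (m0 + (m0 + 1)) - en N 1 m0) := mul_le_mul_of_nonneg_left h3 hkc0.le
  have h8 : 0 ≤ (kc : ℝ) * en N 1 m0 := mul_nonneg hkc0.le h5
  rw [h6, mul_sub] at h7
  push_cast at h4
  linarith

end

/-- The sequence of approximating laws. -/
theorem exists_seq1 : Nonempty (Seq 1 2.915) := by
  have h := fun N : ℕ => exists_time1 (N + 1)
  choose m h0 h1 h2 h3 using h
  refine ⟨⟨fun N => av (N + 1) (m N), fun N => Mn (N + 1) (m N),
    fun N => Fintype.card (Cl (N + 1) 1) / m N, ?_, ?_, ?_, ?_, ?_, ?_⟩⟩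
  · intro N
    refine good_av (h0 N) ((h2 N).trans ?_)
    have : (0 : ℝ) ≤ m N := Nat.cast_nonneg _
    linarith
  · intro N
    exact good_Mn (h3 N)
  · intro N
    positivity
  · intro N
    have hm0 : (0 : ℝ) < m N := by exact_mod_cast h0 N
    have h4 : (((N + 1) * Fintype.card (Cl (N + 1) 1) : ℕ) : ℝ) ≤ m N := by exact_mod_cast h1 N
    push_cast at h4
    rw [div_le_div_iff₀ hm0 (by positivity)]
    push_cast
    linarith
  · intro N
    have hm0 : (0 : ℝ) < m N := by exact_mod_cast h0 N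
    show _ / _ * en (N + 1) 1 (m N) ≤ _
    rw [div_mul_eq_mul_div, div_le_iff₀ hm0]
    exact h2 N
  · intro N φ hφ
    exact sum_updT_av (h0 N) hφ

end Pool.Agent.Y962.BD
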