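import Pool.Agent.Y962.BD.ChainL
import Pool.Agent.Y962.BD.Seq1
import Pool.Agent.W833.BD.Sym

/-! The slope of the limit law is positive in dimension one. -/

namespace Pool.Agent.Y962.BD

set_option linter.unusedSectionVars false

open Pool.Agent.W833.BD MeasureTheory Filter Topology
open scoped ENNReal NNReal

/-- the two chains driven by the same letters -/
noncomputable def tr3 (ε : ℤ) (s : CS × St 1) (x : V 1) : CS × St 1 :=
  (stepS s.1 (ε * x 0), stepC true s.2 x)

/-- the truncated difference of the two lower bounds -/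
noncomputable def Qg (ε : ℤ) (R : ℕ) (s : CS × St 1) (w : Om 1) : ℝ :=
  if |w (siteS ε s.1)| ≤ R ∧ |w (site true s.2)| ≤ R then
    (s.1.M : ℝ) + w (siteS ε s.1) - w (site true s.2) else 0

lemma loc_Qg (ε : ℤ) (R : ℕ) (s : CS × St 1) : Loc (Qg ε R s) :=
  (loc_eval (siteS ε s.1)).comp₂ (loc_eval (site true s.2))
    (fun a b : ℤ => if |a| ≤ R ∧ |b| ≤ R then (s.1.M : ℝ) + a - b else 0)

lemma abs_Qg_le (ε : ℤ) (R : ℕ) (s : CS × St 1) (w : Om 1) :
    |Qg ε R s w| ≤ |(s.1.M : ℝ)| + 2 * R := by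
  unfold Qg
  split_ifs with h
  · have h1 : |(w (siteS ε s.1) : ℝ)| ≤ R := by exact_mod_cast h.1
    have h2 : |(w (site true s.2) : ℝ)| ≤ R := by exact_mod_cast h.2
    rw [abs_le] at h1 h2 ⊢
    have h3 := neg_abs_le (s.1.M : ℝ)
    have h4 := le_abs_self (s.1.M : ℝ)
    constructor <;> linarith
  · simp
    positivity

lemma abs_Qg_le' (ε : ℤ) (R : ℕ) (s : CS × St 1) (w : Om 1) :
    |Qg ε R s w| ≤ |(s.1.M : ℝ)| + |(w (siteS ε s.1) : ℝ)| + |(w (site true s.2) : ℝ)| := by
  unfold Qg
  split_ifs with h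
  · have h1 := abs_sub ((s.1.M : ℝ) + w (siteS ε s.1)) (w (site true s.2) : ℝ)
    have h2 := abs_add_le (s.1.M : ℝ) (w (siteS ε s.1))
    linarith
  · simp
    positivity

/-- the lower bound for the growth -/
lemma Av_le_psi1 {ε : ℤ} (hε : ε = 1 ∨ ε = -1) (L n R : ℕ) (f : Om 1) :
    (Av (box 1 L) (tr3 ε))^[n]
      (fun s => (f (site true s.2) : ℝ) + Qg ε R s (recentre f)) (cs0, st0 1) ≤ psi L n f := by
  refine boxStep_ge_Av (L := L) (tr := tr3 ε)
    (R := fun Φ s => VS ε Φ s.1 ∧ Valid true Φ s.2) ?_ ?_ n _ _ ?_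
  · rintro Φ s x ⟨h1, h2⟩
    exact ⟨VS_step hε h1 x, valid_step h2 x⟩
  · rintro Φ s ⟨h1, h2⟩
    unfold Qg
    split_ifs with h
    · have := le_of_VS h1 f
      simp only [recentre, Int.cast_sub]
      linarith
    · have := le_of_valid_true h2 f
      linarith
  · exact ⟨VS_cs0 ε, valid_st0 true⟩

variable {K : ℝ} {s : Seq 1 K} {μ : Measure (Om 1)}

lemma step_a1 {ε : ℤ} (hε : ε = 1 ∨ ε = -1) (h : s.Lim μ) (L n R : ℕ) :
    (Av (box 1 L) (tr3 ε))^[n]
      (fun t : CS × St 1 => ((site true t.2) 0 : ℝ) + ∫ w, Qg ε R t w ∂μ)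
      (cs0, st0 1) ≤ n * K / (box 1 L).card := by
  obtain ⟨D, hD⟩ := s.psi_growth L n
  set G : ℕ → CS × St 1 → ℝ := fun N t =>
    ∫ f, ((f (site true t.2) : ℝ) - f 0 + Qg ε R t (recentre f)) ∂(s.ρ N) with hG
  have h1 : ∀ t, Tendsto (fun N => G N t) (hyperfilter ℕ : Filter ℕ)
      (𝓝 (((site true t.2) 0 : ℝ) + ∫ w, Qg ε R t w ∂μ)) := by
    intro t
    have h2 : ∀ N, G N t = ((site true t.2) 0 : ℝ) + ∫ f, Qg ε R t (recentre f) ∂(s.ρ N) := by
      intro N
      simp only [hG]
      rw [integral_add]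
      · congr 1
        have := (s.good N).mean 0 (site true t.2)
        simpa using this
      · exact ((s.good N).int_eval _).sub ((s.good N).int_eval _)
      · exact (s.good N).int _ (loc_Qg ε R t).recentre.measurable
    simp only [h2]
    exact tendsto_const_nhds.add (h.tendsto_loc (loc_Qg ε R t) (abs_Qg_le ε R t))
  have h2 := Av_tendsto (Λ := box 1 L) (tr := tr3 ε) h1 n (cs0, st0 1)
  have h3 : Tendsto (fun N : ℕ => n * K / (box 1 L).card + D / ((N : ℝ) + 1))
      (hyperfilter ℕ : Filter ℕ) (𝓝 (n * K / (box 1 L).card)) := by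
    have h4 : Tendsto (fun N : ℕ => n * K / (box 1 L).card + D / ((N : ℝ) + 1)) atTop
        (𝓝 (n * K / (box 1 L).card + 0)) := by
      refine tendsto_const_nhds.add ?_
      have h7 : Tendsto (fun N : ℕ => (N : ℝ) + 1) atTop atTop :=
        tendsto_atTop_add_const_right _ _ tendsto_natCast_atTop_atTop
      exact Tendsto.div_atTop tendsto_const_nhds h7
    rw [add_zero] at h4
    exact h4.mono_left Nat.hyperfilter_le_atTop
  refine le_of_tendsto_of_tendsto h2 h3 ?_
  have hD' : ∀ᶠ N in (hyperfilter ℕ : Filter ℕ),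
      ∫ f, (psi L n f - f 0) ∂(s.ρ N) ≤ n * K / (box 1 L).card + D / ((N : ℝ) + 1) :=
    Nat.hyperfilter_le_atTop hD
  filter_upwards [hD'] with N hN
  refine le_trans ?_ hN
  have hint : ∀ t : CS × St 1, Integrable
      (fun f : Om 1 => (f (site true t.2) : ℝ) - f 0 + Qg ε R t (recentre f)) (s.ρ N) := by
    intro t
    exact (((s.good N).int_eval _).sub ((s.good N).int_eval _)).add
      ((s.good N).int _ (loc_Qg ε R t).recentre.measurable)
  rw [← (Av_integral (Λ := box 1 L) (tr := tr3 ε) hint n (cs0, st0 1)).2]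
  refine integral_mono (Av_integral hint n _).1 ?_ ?_
  · exact ((s.good N).int _ (measurable_psi L n)).sub ((s.good N).int_eval 0)
  · intro f
    have h4 := Av_le_psi1 hε L n R f
    have h5 : (Av (box 1 L) (tr3 ε))^[n]
        (fun s => (f (site true s.2) : ℝ) + Qg ε R s (recentre f)) (cs0, st0 1)
        = (Av (box 1 L) (tr3 ε))^[n]
        (fun s => (f (site true s.2) : ℝ) - f 0 + Qg ε R s (recentre f)) (cs0, st0 1) + f 0 := by
      have h6 : (fun s : CS × St 1 => (f (site true s.2) : ℝ) + Qg ε R s (recentre f))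
          = fun s => ((f (site true s.2) : ℝ) - f 0 + Qg ε R s (recentre f)) + f 0 := by
        funext s
        ring
      rw [h6, Av_add, Av_const (Finset.card_pos.1 (card_box_pos L))]
    simp only
    linarith

lemma step_b1 {ε : ℤ} (hε : ε = 1 ∨ ε = -1) (h : s.Lim μ) (L n : ℕ) :
    (Av (box 1 L) (tr3 ε))^[n] (fun t : CS × St 1 => ((site true t.2) 0 : ℝ) +
      (t.1.M + Seq.Lim.slope μ * (siteS ε t.1) 0 - Seq.Lim.slope μ * (site true t.2) 0))
      (cs0, st0 1) ≤ n * K / (box 1 L).card := by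
  have := h.prob
  have h1 : ∀ t : CS × St 1, Tendsto
      (fun R : ℕ => ((site true t.2) 0 : ℝ) + ∫ w, Qg ε R t w ∂μ)
      atTop (𝓝 (((site true t.2) 0 : ℝ) +
        (t.1.M + Seq.Lim.slope μ * (siteS ε t.1) 0
          - Seq.Lim.slope μ * (site true t.2) 0))) := by
    intro t
    refine tendsto_const_nhds.add ?_
    have h2 : ∫ w, ((t.1.M : ℝ) + w (siteS ε t.1) - w (site true t.2)) ∂μ
        = t.1.M + Seq.Lim.slope μ * (siteS ε t.1) 0
          - Seq.Lim.slope μ * (site true t.2) 0 := by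
      have e1 : Integrable (fun w : Om 1 => (t.1.M : ℝ) + w (siteS ε t.1)) μ :=
        (integrable_const _).add (h.integrable_eval _)
      rw [integral_sub e1 (h.integrable_eval _),
        integral_add (integrable_const _) (h.integrable_eval _), h.mean, h.mean]
      simp
    rw [← h2]
    refine tendsto_integral_of_dominated_convergence
      (fun w => |(t.1.M : ℝ)| + |(w (siteS ε t.1) : ℝ)| + |(w (site true t.2) : ℝ)|)
      (fun R => (loc_Qg ε R t).measurable.aestronglyMeasurable) ?_ ?_ ?_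
    · exact ((integrable_const _).add (h.integrable_eval _).abs).add (h.integrable_eval _).abs
    · intro R
      exact Eventually.of_forall fun w => abs_Qg_le' ε R t w
    · refine Eventually.of_forall fun w => ?_
      refine tendsto_const_nhds.congr' ?_
      obtain ⟨R1, hR1⟩ := exists_nat_ge |(w (siteS ε t.1) : ℝ)|
      obtain ⟨R2, hR2⟩ := exists_nat_ge |(w (site true t.2) : ℝ)|
      filter_upwards [eventually_ge_atTop R1, eventually_ge_atTop R2] with R h3 h4
      unfold Qg
      have h5 : |(w (siteS ε t.1) : ℝ)| ≤ R := hR1.trans (by exact_mod_cast h3)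
      have h6 : |(w (site true t.2) : ℝ)| ≤ R := hR2.trans (by exact_mod_cast h4)
      rw [if_pos ⟨by exact_mod_cast h5, by exact_mod_cast h6⟩]
  refine le_of_tendsto (Av_tendsto (Λ := box 1 L) (tr := tr3 ε) h1 n (cs0, st0 1)) ?_
  exact Eventually.of_forall fun R => step_a1 hε h L n R

/-- the law of the chain does not depend on the sign -/
lemma Av_sign {L : ℕ} (g : CS → ℝ) (n : ℕ) : ∀ s : CS,
    (Av (box 1 L) (fun s x => stepS s (-1 * x 0)))^[n] g s
      = (Av (box 1 L) (fun s x => stepS s (1 * x 0)))^[n] g s := by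
  induction n with
  | zero => intro s; rfl
  | succ n ih =>
    intro s
    simp only [Function.iterate_succ_apply']
    unfold Av at ih ⊢
    congr 1
    refine Finset.sum_nbij' (fun x => -x) (fun x => -x) ?_ ?_ ?_ ?_ ?_
    · intro x hx
      rw [mem_box] at hx ⊢
      intro i
      rw [Pi.neg_apply, abs_neg]
      exact hx i
    · intro x hx
      rw [mem_box] at hx ⊢
      intro i
      rw [Pi.neg_apply, abs_neg]
      exact hx i
    · intro x _
      exact neg_neg x
    · intro x _
      exact neg_neg x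
    · intro x _
      rw [ih]
      simp

/-- the position of the top site -/
noncomputable def tpos (t : CS) : ℝ := (t.p : ℝ) + top t.i

/-- The main inequality. -/
lemma step_c1 (h : s.Lim μ) (L n : ℕ) :
    (Av (box 1 L) (fun s x => stepS s (1 * x 0)))^[n] (fun t : CS => (t.M : ℝ)) cs0
      + (1 - Seq.Lim.slope μ) *
        (Av (box 1 L) (stepC true))^[n] (fun t : St 1 => (t.M : ℝ)) (st0 1)
      ≤ n * K / (box 1 L).card := by
  set a := Seq.Lim.slope μ with ha
  have key : ∀ ε : ℤ, (ε = 1 ∨ ε = -1) →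
      (Av (box 1 L) (fun s x => stepS s (ε * x 0)))^[n] (fun t : CS => (t.M : ℝ)) cs0
      + a * (ε * (Av (box 1 L) (fun s x => stepS s (ε * x 0)))^[n]
        tpos cs0)
      + (1 - a) * (Av (box 1 L) (stepC true))^[n] (fun t : St 1 => (t.M : ℝ)) (st0 1)
      ≤ n * K / (box 1 L).card := by
    intro ε hε
    refine le_trans ?_ (step_b1 hε h L n)
    have h1 : (Av (box 1 L) (tr3 ε))^[n] (fun t : CS × St 1 =>
          ((t.1.M : ℝ) + (a * ε) * tpos t.1) + (1 - a) * t.2.M)
        (cs0, st0 1) ≤ (Av (box 1 L) (tr3 ε))^[n] (fun t : CS × St 1 =>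
          ((site true t.2) 0 : ℝ) +
        (t.1.M + a * (siteS ε t.1) 0 - a * (site true t.2) 0)) (cs0, st0 1) := by
      refine Av_mono_on (fun t : CS × St 1 => Inv true t.2)
        (fun t x _ ht => inv_step ht x) ?_ n _ (inv_st0 true)
      intro t h2
      rw [site_true_zero h2]
      apply le_of_eq
      unfold siteS st1 tpos
      push_cast
      ring
    refine le_trans (le_of_eq ?_) h1
    rw [Av_add, Av_add, Av_const_mul, Av_const_mul]
    have h2 : ∀ g : CS → ℝ, (Av (box 1 L) (tr3 ε))^[n] (fun t : CS × St 1 => g t.1) (cs0, st0 1)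
        = (Av (box 1 L) (fun s x => stepS s (ε * x 0)))^[n] g cs0 := fun g =>
      Av_comp (Λ := box 1 L) (tr := tr3 ε) (tr' := fun s x => stepS s (ε * x 0)) (p := Prod.fst)
        (fun _ _ => rfl) g n (cs0, st0 1)
    have h3 := Av_comp (Λ := box 1 L) (tr := tr3 ε) (tr' := stepC true) (p := Prod.snd)
      (fun _ _ => rfl) (fun t : St 1 => (t.M : ℝ)) n (cs0, st0 1)
    rw [h3, h2 (fun t => (t.M : ℝ)), h2 tpos]
    ring
  have k1 := key 1 (Or.inl rfl)
  have k2 := key (-1) (Or.inr rfl)
  rw [Av_sign, Av_sign] at k2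
  push_cast at k1 k2
  linarith

/-- The slope of the limit law is positive. -/
theorem slope_pos1 (h : s.Lim μ) (hK : K < 2.917) : 0 < Seq.Lim.slope μ := by
  by_contra ha
  push Not at ha
  set a := Seq.Lim.slope μ with ha'
  -- the inequality for every `T`, after `L → ∞`
  have h1 : ∀ T : ℕ, (1.917 * T - 3) + (1 - a) * (T - 1) ≤ T * K := by
    intro T
    have h2 : ∀ L : ℕ, 0 < L →
        (1.917 * T - 1.917 * (8 * T + 64 * T ^ 2) / L - 3)
          + (1 - a) * (1 * T * (1 - Real.exp ((2 * (1 : ℕ) + 1) * T) / L) - 0 - 1) ≤ T * K := by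
      intro L hL
      have hcard : (0 : ℝ) < (box 1 L).card := by exact_mod_cast card_box_pos L
      have h3 := step_c1 h L (T * (box 1 L).card)
      have h4 := Av_level_ge (ε := 1) (Or.inl rfl) hL T
      have h5 := Av_M_ge (d := 1) (b := true) (B := 0) (φ := fun _ => 0) (c := 1) (by norm_num)
        (by norm_num) (by norm_num) rfl monotone_const (fun _ => by norm_num) (fun u hu => by
          have : (1 : ℝ) ≤ u := by exact_mod_cast hu
          simpa using this) hL T
      have h6 : ((T * (box 1 L).card : ℕ) : ℝ) * K / (box 1 L).card = T * K := by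
        push_cast
        field_simp
      rw [h6] at h3
      have h7 := mul_le_mul_of_nonneg_left h5 (by linarith : (0 : ℝ) ≤ 1 - a)
      linarith
    have h3 : Tendsto (fun L : ℕ =>
        (1.917 * T - 1.917 * (8 * T + 64 * T ^ 2) / L - 3)
          + (1 - a) * (1 * T * (1 - Real.exp ((2 * (1 : ℕ) + 1) * T) / L) - 0 - 1)) atTop
        (𝓝 ((1.917 * T - 0 - 3) + (1 - a) * (1 * T * (1 - 0) - 0 - 1))) := by
      refine Tendsto.add (Tendsto.sub_const (tendsto_const_nhds.sub ?_) _)
        (Tendsto.const_mul _ (Tendsto.sub_const (Tendsto.sub_const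
          (Tendsto.const_mul _ (tendsto_const_nhds.sub ?_)) _) _))
      · exact Tendsto.div_atTop tendsto_const_nhds tendsto_natCast_atTop_atTop
      · exact Tendsto.div_atTop tendsto_const_nhds tendsto_natCast_atTop_atTop
    have h4 := le_of_tendsto h3 ((eventually_gt_atTop 0).mono h2)
    have e1 : (1.917 * (T : ℝ) - 0 - 3) + (1 - a) * (1 * T * (1 - 0) - 0 - 1)
        = (1.917 * T - 3) + (1 - a) * (T - 1) := by ring
    rwa [e1] at h4
  -- `T → ∞`
  have h2 : 1.917 + (1 - a) ≤ K := by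
    have h3 : ∀ T : ℕ, 0 < T → 1.917 + (1 - a) - (4 - a) / T ≤ K := by
      intro T hT
      have hT' : (0 : ℝ) < T := by exact_mod_cast hT
      have h4 := h1 T
      have h5 : 1.917 + (1 - a) - (4 - a) / T = ((1.917 * T - 3) + (1 - a) * (T - 1)) / T := by
        field_simp
        ring
      rw [h5, div_le_iff₀ hT']
      linarith
    have h4 : Tendsto (fun T : ℕ => 1.917 + (1 - a) - (4 - a) / T) atTop
        (𝓝 (1.917 + (1 - a) - 0)) :=
      tendsto_const_nhds.sub (Tendsto.div_atTop tendsto_const_nhds tendsto_natCast_atTop_atTop)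
    rw [sub_zero] at h4
    exact le_of_tendsto h4 ((eventually_gt_atTop 0).mono h3)
  linarith

/-- Existence of a stationary law with a positive slope in dimension one. -/
theorem exists_nice1 : ∃ (μ : Measure (Om 1)) (a : ℝ), Nice μ ∧ 0 < a ∧
    (∀ x : V 1, ∫ w, (w x : ℝ) ∂μ = a * x 0) := by
  obtain ⟨sq⟩ := exists_seq1
  obtain ⟨μ, hμ⟩ := sq.exists_lim
  exact ⟨μ, Seq.Lim.slope μ, ⟨hμ.wstat, hμ.integrable_eval, hμ.map_Tz⟩,
    slope_pos1 hμ (by norm_num), hμ.mean⟩

end Pool.Agent.Y962.BD
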