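import Pool.Agent.Y962.BD.CertU

/-! The inequalities of the certificate for all integers. -/

namespace Pool.Agent.Y962.BD

/-- the height at a site after an update -/
def nz (l x r : ℤ) : ℤ := max (x + 1) (max l r)

/-- the function `F` -/
noncomputable def Fz (x y z : ℤ) : ℝ :=
  (7 / 5 : ℝ) ^ (max x (max y z)) * psD (max x (max y z) - x).toNat (max x (max y z) - y).toNat
    (max x (max y z) - z).toNat

/-- the function `Λ` -/
noncomputable def Lz (x y z : ℤ) : ℝ :=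
  (7 / 5 : ℝ) ^ (max x (max y z)) * laD (max x (max y z) - x).toNat (max x (max y z) - y).toNat
    (max x (max y z) - z).toNat

/-- the function `G` -/
noncomputable def Gz (a x y z : ℤ) : ℝ :=
  (7 / 5 : ℝ) ^ (max a (max x (max y z))) * ((gaD (max a (max x (max y z)) - a).toNat
    (max a (max x (max y z)) - x).toNat (max a (max x (max y z)) - y).toNat
    (max a (max x (max y z)) - z).toNat : ℝ) - 100000)

lemma psD_congr {a b c a' b' c' : ℕ} (h1 : min a 6 = min a' 6) (h2 : min b 6 = min b' 6)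
    (h3 : min c 6 = min c' 6) : psD a b c = psD a' b' c' := by
  unfold psD
  rw [m6_eq, m6_eq, m6_eq, m6_eq, m6_eq, m6_eq, h1, h2, h3]

lemma gaD_congr {a b c d a' b' c' d' : ℕ} (h1 : min a 6 = min a' 6) (h2 : min b 6 = min b' 6)
    (h3 : min c 6 = min c' 6) (h4 : min d 6 = min d' 6) : gaD a b c d = gaD a' b' c' d' := by
  unfold gaD
  rw [m6_eq, m6_eq, m6_eq, m6_eq, m6_eq, m6_eq, m6_eq, m6_eq, h1, h2, h3, h4]

lemma laD_congr {a b c a' b' c' : ℕ} (h1 : min a 7 = min a' 7) (h2 : min b 7 = min b' 7)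
    (h3 : min c 7 = min c' 7) : laD a b c = laD a' b' c' := by
  unfold laD
  rw [m7_eq, m7_eq, m7_eq, m7_eq, m7_eq, m7_eq, h1, h2, h3]

lemma Wt_eq {m : ℕ} (h1 : 7 ≤ m) (h2 : m ≤ 13) :
    (Wt m : ℝ) = 15625 * (7 / 5 : ℝ) ^ ((m : ℤ) - 7) := by
  obtain ⟨k, rfl⟩ : ∃ k, m = 7 + k := ⟨m - 7, by omega⟩
  have hk : k ≤ 6 := by omega
  have h3 : ((7 + k : ℕ) : ℤ) - 7 = (k : ℤ) := by push_cast; ring
  rw [h3, zpow_natCast]
  interval_cases k <;> norm_num [Wt]

lemma qpow (a b : ℤ) : (7 / 5 : ℝ) ^ (a + b) = (7 / 5 : ℝ) ^ a * (7 / 5 : ℝ) ^ b :=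
  zpow_add₀ (by norm_num) a b

/-- the height `x` is represented by `x'` -/
def Rp (μ x : ℤ) (x' : ℕ) : Prop := (x' : ℤ) = x - μ + 7 ∨ (x ≤ μ - 6 ∧ x' ≤ 1)

/-- the height `x` is represented by `x'`, exactly up to depth `7` -/
def Rq (μ x : ℤ) (x' : ℕ) : Prop :=
  ((x' : ℤ) = x - μ + 7 ∧ x ≤ μ) ∨ (x ≤ μ - 7 ∧ x' = 0)

lemma Rq.rp {μ x : ℤ} {x' : ℕ} (h : Rq μ x x') : Rp μ x x' := by
  unfold Rq at h
  unfold Rp
  omega

lemma Rq.succ {μ x : ℤ} {x' : ℕ} (h : Rq μ x x') : Rp μ (x + 1) (x' + 1) := by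
  unfold Rq at h
  unfold Rp
  omega

lemma Rp.max {μ x y : ℤ} {x' y' : ℕ} (h : Rp μ x x') (h' : Rp μ y y') :
    Rp μ (max x y) (max x' y') := by
  unfold Rp at *
  rcases le_total x y with h1 | h1 <;> rcases le_total x' y' with h2 | h2 <;>
  simp only [max_eq_left, max_eq_right, h1, h2] <;> omega

lemma Rp.eq {μ x : ℤ} {x' : ℕ} (h : Rp μ x x') (h1 : μ ≤ x) : (x' : ℤ) = x - μ + 7 := by
  unfold Rp at h
  omega

lemma Rp.dep {μ x m : ℤ} {x' m' : ℕ} (h : Rp μ x x') (hm : (m' : ℤ) = m - μ + 7) (h1 : μ ≤ m) :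
    min (m - x).toNat 6 = min (m' - x') 6 := by
  unfold Rp at h
  rcases h with h | h <;> omega

lemma exists_rq {μ x : ℤ} (h : x ≤ μ) : ∃ x' : ℕ, Rq μ x x' ∧ x' ≤ 7 := by
  by_cases h1 : x ≤ μ - 7
  · exact ⟨0, Or.inr ⟨h1, rfl⟩, by norm_num⟩
  · push Not at h1
    refine ⟨(x - μ + 7).toNat, Or.inl ⟨?_, h⟩, ?_⟩ <;> omega

lemma F_rep {x y z μ : ℤ} {x' y' z' : ℕ} (hx : Rp μ x x') (hy : Rp μ y y') (hz : Rp μ z z')
    (h1 : μ ≤ max x (max y z)) (h2 : max x (max y z) ≤ μ + 6) :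
    15625 * Fz x y z = (7 / 5 : ℝ) ^ μ * wF x' y' z' := by
  have hm := (hx.max (hy.max hz)).eq h1
  unfold Fz wF
  rw [mx_eq, mx_eq]
  generalize max x (max y z) = m at *
  generalize max x' (max y' z') = m' at *
  rw [psD_congr (hx.dep hm h1) (hy.dep hm h1) (hz.dep hm h1)]
  have e1 : (Nat.mul (Wt m') (psD (Nat.sub m' x') (Nat.sub m' y') (Nat.sub m' z')) : ℕ)
      = Wt m' * psD (m' - x') (m' - y') (m' - z') := rfl
  have e2 : m = μ + ((m' : ℤ) - 7) := by omega
  rw [e1, e2, qpow]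
  push_cast
  rw [Wt_eq (by omega) (by omega)]
  ring

lemma G_rep {a x y z μ : ℤ} {a' x' y' z' : ℕ} (ha : Rp μ a a') (hx : Rp μ x x')
    (hy : Rp μ y y') (hz : Rp μ z z')
    (h1 : μ ≤ max a (max x (max y z))) (h2 : max a (max x (max y z)) ≤ μ + 6) :
    15625 * Gz a x y z
      = (7 / 5 : ℝ) ^ μ * ((wG a' x' y' z' : ℝ) - 100000 * Wt (max a' (max x' (max y' z')))) := by
  have hm := (ha.max (hx.max (hy.max hz))).eq h1
  unfold Gz wG
  rw [mx_eq, mx_eq, mx_eq]
  generalize max a (max x (max y z)) = m at *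
  generalize max a' (max x' (max y' z')) = m' at *
  rw [gaD_congr (ha.dep hm h1) (hx.dep hm h1) (hy.dep hm h1) (hz.dep hm h1)]
  have e1 : (Nat.mul (Wt m') (gaD (Nat.sub m' a') (Nat.sub m' x') (Nat.sub m' y')
      (Nat.sub m' z')) : ℕ) = Wt m' * gaD (m' - a') (m' - x') (m' - y') (m' - z') := rfl
  have e2 : m = μ + ((m' : ℤ) - 7) := by omega
  rw [e1, e2, qpow]
  push_cast
  rw [Wt_eq (by omega) (by omega)]
  ring

lemma L_rep {x y z μ : ℤ} {x' y' z' : ℕ} (hm : max x (max y z) = μ)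
    (hx : Rq μ x x') (hy : Rq μ y y') (hz : Rq μ z z') :
    Lz x y z = (7 / 5 : ℝ) ^ μ * laD (7 - x') (7 - y') (7 - z') := by
  have h : ∀ {x : ℤ} {x' : ℕ}, Rq μ x x' → min (μ - x).toNat 7 = min (7 - x') 7 := by
    intro x x' h
    unfold Rq at h
    rcases h with h | h <;> omega
  unfold Lz
  rw [hm, laD_congr (h hx) (h hy) (h hz)]

lemma Lz_nonneg (x y z : ℤ) : 0 ≤ Lz x y z := by
  unfold Lz
  positivity

/-- the representative of a depth profile -/
lemma exists_rep (x y z : ℤ) : ∃ (μ : ℤ) (x' y' z' : ℕ), max x (max y z) = μ ∧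
    Rq μ x x' ∧ Rq μ y y' ∧ Rq μ z z' ∧ x' ≤ 7 ∧ y' ≤ 7 ∧ z' ≤ 7 ∧ max x' (max y' z') = 7 := by
  obtain ⟨x', hx, hx'⟩ := exists_rq (μ := max x (max y z)) (x := x) (le_max_left _ _)
  obtain ⟨y', hy, hy'⟩ := exists_rq (μ := max x (max y z)) (x := y)
    ((le_max_left _ _).trans (le_max_right _ _))
  obtain ⟨z', hz, hz'⟩ := exists_rq (μ := max x (max y z)) (x := z)
    ((le_max_right _ _).trans (le_max_right _ _))
  refine ⟨_, x', y', z', rfl, hx, hy, hz, hx', hy', hz', ?_⟩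
  have h1 := (hx.rp.max (hy.rp.max hz.rp)).eq le_rfl
  omega

lemma nzN_eq (l x r : ℕ) : nzN l x r = max (x + 1) (max l r) := by
  unfold nzN
  rw [mx_eq, mx_eq]

lemma Rp_nz {μ l x r : ℤ} {l' x' r' : ℕ} (hl : Rp μ l l') (hx : Rq μ x x') (hr : Rp μ r r') :
    Rp μ (nz l x r) (nzN l' x' r') := by
  rw [nzN_eq]
  unfold nz
  exact hx.succ.max (hl.max hr)

/-- the representative of the neighbouring height -/
lemma exists_rp {μ a : ℤ} (ha : a ≤ μ + 6) : ∃ A : ℕ, Rp μ a A ∧ 1 ≤ A ∧ A ≤ 13 ∧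
    (μ ≤ a → (A : ℤ) = a - μ + 7) ∧ (a ≤ μ → A ≤ 7) := by
  by_cases h1 : a ≤ μ - 6
  · refine ⟨1, Or.inr ⟨h1, le_rfl⟩, by norm_num, by norm_num, fun h => ?_, fun _ => by norm_num⟩
    omega
  · push Not at h1
    refine ⟨(a - μ + 7).toNat, Or.inl ?_, ?_, ?_, ?_, ?_⟩ <;> omega

/-- The first inequality of the certificate. -/
theorem ineq1 (a x y z : ℤ) : Fz (nz a x y) y z + 7 / 5 * Gz a x y z ≤ Lz x y z := by
  obtain ⟨μ, x', y', z', hm, hx, hy, hz, hx7, hy7, hz7, h7⟩ := exists_rep x y z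
  have hq : (0 : ℝ) < (7 / 5 : ℝ) ^ μ := zpow_pos (by norm_num) _
  have hxm : x ≤ μ := hm ▸ le_max_left _ _
  have hym : y ≤ μ := hm ▸ (le_max_left _ _).trans (le_max_right _ _)
  have hzm : z ≤ μ := hm ▸ (le_max_right _ _).trans (le_max_right _ _)
  have hmax : x = μ ∨ y = μ ∨ z = μ := by
    rcases max_choice x (max y z) with h | h
    · left; omega
    · rcases max_choice y z with h' | h' <;> omega
  by_cases ha : a ≤ μ + 6
  · obtain ⟨A, hA, hA1, hA13, -, -⟩ := exists_rp ha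
    have hc := (chk_fin (A := A) hx7 hy7 hz7 h7 hA1 hA13).1
    unfold chk1 at hc
    rw [Nat.ble_eq, mx_eq] at hc
    have hc' : 5 * (wF (nzN A x' y') y' z' : ℝ) + 7 * wG A x' y' z'
        ≤ 78125 * laD (7 - x') (7 - y') (7 - z') + 700000 * Wt (max A 7) := by
      exact_mod_cast hc
    have e1 : 15625 * Fz (nz a x y) y z = (7 / 5 : ℝ) ^ μ * wF (nzN A x' y') y' z' := by
      have h1 : x + 1 ≤ nz a x y := le_max_left _ _
      have h2 : nz a x y ≤ μ + 6 := max_le (by omega) (max_le ha (by omega))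
      refine F_rep (Rp_nz hA hx hy.rp) hy.rp hz.rp ?_ ?_
      · rcases hmax with h | h | h
        · exact (by omega : μ ≤ nz a x y).trans (le_max_left _ _)
        · exact h.ge.trans ((le_max_left _ _).trans (le_max_right _ _))
        · exact h.ge.trans ((le_max_right _ _).trans (le_max_right _ _))
      · exact max_le h2 (max_le (by omega) (by omega))
    have e2 : 15625 * Gz a x y z
        = (7 / 5 : ℝ) ^ μ * ((wG A x' y' z' : ℝ) - 100000 * Wt (max A 7)) := by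
      rw [← h7]
      refine G_rep hA hx.rp hy.rp hz.rp ?_ ?_
      · rw [hm]
        exact le_max_right _ _
      · rw [hm]
        exact max_le ha (by omega)
    have e3 := L_rep hm hx hy hz
    have h5 : (7 / 5 : ℝ) ^ μ * (5 * (wF (nzN A x' y') y' z' : ℝ) + 7 * wG A x' y' z')
        ≤ (7 / 5 : ℝ) ^ μ * (78125 * laD (7 - x') (7 - y') (7 - z') + 700000 * Wt (max A 7)) :=
      mul_le_mul_of_nonneg_left hc' hq.le
    rw [e3]
    linarith
  · push Not at ha
    have hyb : ∀ t : ℤ, t ≤ μ → min (a - t).toNat 6 = min 6 6 := by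
      intro t ht
      omega
    have h1 : Fz (nz a x y) y z = (7 / 5 : ℝ) ^ a * psD 0 6 6 := by
      have h2 : nz a x y = a := max_eq_right_of_lt (by
        rw [max_eq_left (by omega)]; omega) |>.trans (max_eq_left (by omega))
      have h3 : max a (max y z) = a := max_eq_left (max_le (by omega) (by omega))
      unfold Fz
      rw [h2, h3, psD_congr (a' := 0) (b' := 6) (c' := 6) (by simp) (hyb y hym) (hyb z hzm)]
    have h2 : Gz a x y z = (7 / 5 : ℝ) ^ a * ((gaD 0 6 6 6 : ℝ) - 100000) := by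
      unfold Gz
      have h3 : max a (max x (max y z)) = a := by
        rw [hm]
        exact max_eq_left (by omega)
      rw [h3, gaD_congr (a' := 0) (b' := 6) (c' := 6) (d' := 6) (by simp) (hyb x hxm)
        (hyb y hym) (hyb z hzm)]
    have h3 : (5 : ℝ) * psD 0 6 6 + 7 * gaD 0 6 6 6 ≤ 700000 := by exact_mod_cast topL
    have h4 := Lz_nonneg x y z
    have h5 : (0 : ℝ) < (7 / 5 : ℝ) ^ a := zpow_pos (by norm_num) _
    have h6 : (7 / 5 : ℝ) ^ a * ((5 : ℝ) * psD 0 6 6 + 7 * gaD 0 6 6 6)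
        ≤ (7 / 5 : ℝ) ^ a * 700000 := mul_le_mul_of_nonneg_left h3 h5.le
    rw [h1, h2]
    linarith

lemma ineq2_top {x y z c : ℤ} (hc : max x (max y z) + 6 ≤ c) :
    Fz x y (nz y z c) - Gz x y z c
      = (7 / 5 : ℝ) ^ c * ((psD 6 6 0 : ℝ) - ((gaD 6 6 6 0 : ℝ) - 100000)) := by
  have hxm : x ≤ max x (max y z) := le_max_left _ _
  have hym : y ≤ max x (max y z) := (le_max_left _ _).trans (le_max_right _ _)
  have hzm : z ≤ max x (max y z) := (le_max_right _ _).trans (le_max_right _ _)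
  generalize max x (max y z) = μ at *
  have hyb : ∀ t : ℤ, t ≤ μ → min (c - t).toNat 6 = min 6 6 := by
    intro t ht
    omega
  have h1 : Fz x y (nz y z c) = (7 / 5 : ℝ) ^ c * psD 6 6 0 := by
    have h2 : nz y z c = c := by
      unfold nz
      rw [max_eq_right (by omega : y ≤ c), max_eq_right (by omega)]
    have h3 : max x (max y c) = c := by
      rw [max_eq_right (by omega : y ≤ c), max_eq_right (by omega)]
    unfold Fz
    rw [h2, h3, psD_congr (a' := 6) (b' := 6) (c' := 0) (hyb x hxm) (hyb y hym) (by simp)]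
  have h2 : Gz x y z c = (7 / 5 : ℝ) ^ c * ((gaD 6 6 6 0 : ℝ) - 100000) := by
    unfold Gz
    have h3 : max x (max y (max z c)) = c := by
      rw [max_eq_right (by omega : z ≤ c), max_eq_right (by omega : y ≤ c),
        max_eq_right (by omega)]
    rw [h3, gaD_congr (a' := 6) (b' := 6) (c' := 6) (d' := 0) (hyb x hxm) (hyb y hym)
      (hyb z hzm) (by simp)]
  rw [h1, h2]
  ring

lemma ineq2_fin {x y z c : ℤ} (hc : c ≤ max x (max y z) + 6) :
    Fz x y (nz y z c) - Gz x y z c + Lz x y z + Fz x (nz x y z) z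
      ≤ (3 + 9792 / 10000) * Fz x y z := by
  obtain ⟨μ, x', y', z', hm, hx, hy, hz, hx7, hy7, hz7, h7⟩ := exists_rep x y z
  have hq : (0 : ℝ) < (7 / 5 : ℝ) ^ μ := zpow_pos (by norm_num) _
  have hxm : x ≤ μ := hm ▸ le_max_left _ _
  have hym : y ≤ μ := hm ▸ (le_max_left _ _).trans (le_max_right _ _)
  have hzm : z ≤ μ := hm ▸ (le_max_right _ _).trans (le_max_right _ _)
  have hmax : x = μ ∨ y = μ ∨ z = μ := by
    rcases max_choice x (max y z) with h | h
    · left; omega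
    · rcases max_choice y z with h' | h' <;> omega
  rw [hm] at hc
  obtain ⟨A, hA, hA1, hA13, hA2, hA3⟩ := exists_rp hc
  have hck := (chk_fin (A := A) hx7 hy7 hz7 h7 hA1 hA13).2
  unfold chk2 at hck
  rw [Nat.ble_eq, mx_eq] at hck
  have hc' : 10000 * ((wF x' y' (nzN y' z' A) : ℝ) + wF x' (nzN x' y' z') z' +
      (100000 * Wt (max A 7) + 15625 * laD (7 - x') (7 - y') (7 - z')))
      ≤ 39792 * wF x' y' z' + 10000 * wG x' y' z' A := by
    exact_mod_cast hck
  have e1 : 15625 * Fz x y (nz y z c) = (7 / 5 : ℝ) ^ μ * wF x' y' (nzN y' z' A) := by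
    have h1 : z + 1 ≤ nz y z c := le_max_left _ _
    have h2 : nz y z c ≤ μ + 6 := max_le (by omega) (max_le (by omega) hc)
    refine F_rep hx.rp hy.rp (Rp_nz hy.rp hz hA) ?_ ?_
    · rcases hmax with h | h | h
      · exact h.ge.trans (le_max_left _ _)
      · exact h.ge.trans ((le_max_left _ _).trans (le_max_right _ _))
      · exact (by omega : μ ≤ nz y z c).trans ((le_max_right _ _).trans (le_max_right _ _))
    · exact max_le (by omega) (max_le (by omega) h2)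
  have e2 : 15625 * Gz x y z c
      = (7 / 5 : ℝ) ^ μ * ((wG x' y' z' A : ℝ) - 100000 * Wt (max A 7)) := by
    have h1 : max A 7 = max x' (max y' (max z' A)) := by
      rw [← h7, max_comm A, max_assoc, max_assoc]
    rw [h1]
    have h2 : max x (max y (max z c)) = max μ c := by
      rw [← hm, max_assoc, max_assoc]
    refine G_rep hx.rp hy.rp hz.rp hA ?_ ?_
    · rw [h2]
      exact le_max_left _ _
    · rw [h2]
      exact max_le (by omega) hc
  have e3 := L_rep hm hx hy hz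
  have e4 : 15625 * Fz x (nz x y z) z = (7 / 5 : ℝ) ^ μ * wF x' (nzN x' y' z') z' := by
    have h1 : y + 1 ≤ nz x y z := le_max_left _ _
    have h2 : nz x y z ≤ μ + 6 := max_le (by omega) (max_le (by omega) (by omega))
    refine F_rep hx.rp (Rp_nz hx.rp hy hz.rp) hz.rp ?_ ?_
    · rcases hmax with h | h | h
      · exact h.ge.trans (le_max_left _ _)
      · exact (by omega : μ ≤ nz x y z).trans ((le_max_left _ _).trans (le_max_right _ _))
      · exact h.ge.trans ((le_max_right _ _).trans (le_max_right _ _))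
    · exact max_le (by omega) (max_le h2 (by omega))
  have e5 : 15625 * Fz x y z = (7 / 5 : ℝ) ^ μ * wF x' y' z' :=
    F_rep hx.rp hy.rp hz.rp hm.ge (by omega)
  have h5 : (7 / 5 : ℝ) ^ μ * (10000 * ((wF x' y' (nzN y' z' A) : ℝ) + wF x' (nzN x' y' z') z' +
      (100000 * Wt (max A 7) + 15625 * laD (7 - x') (7 - y') (7 - z'))))
      ≤ (7 / 5 : ℝ) ^ μ * (39792 * wF x' y' z' + 10000 * wG x' y' z' A) :=
    mul_le_mul_of_nonneg_left hc' hq.le
  rw [e3]
  linarith

/-- The second inequality of the certificate. -/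
theorem ineq2 (x y z c : ℤ) :
    Fz x y (nz y z c) - Gz x y z c + Lz x y z + Fz x (nz x y z) z
      ≤ (3 + 9792 / 10000) * Fz x y z := by
  by_cases hc : c ≤ max x (max y z) + 6
  · exact ineq2_fin hc
  · push Not at hc
    have h1 := ineq2_fin (x := x) (y := y) (z := z) (c := max x (max y z) + 6) le_rfl
    rw [ineq2_top le_rfl] at h1
    rw [ineq2_top hc.le]
    have h2 : (psD 6 6 0 : ℝ) + 100000 ≤ gaD 6 6 6 0 := by exact_mod_cast topR
    have h3 : (7 / 5 : ℝ) ^ (max x (max y z) + 6) ≤ (7 / 5 : ℝ) ^ c :=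
      zpow_le_zpow_right₀ (by norm_num) hc.le
    have h4 : (7 / 5 : ℝ) ^ c * ((psD 6 6 0 : ℝ) - ((gaD 6 6 6 0 : ℝ) - 100000))
        ≤ (7 / 5 : ℝ) ^ (max x (max y z) + 6) * ((psD 6 6 0 : ℝ) - ((gaD 6 6 6 0 : ℝ) - 100000)) :=
      mul_le_mul_of_nonpos_right h3 (by linarith)
    linarith

lemma Fz_ge (x y z : ℤ) : (7 / 5 : ℝ) ^ y ≤ Fz x y z := by
  unfold Fz
  have h1 : (7 / 5 : ℝ) ^ y ≤ (7 / 5 : ℝ) ^ (max x (max y z)) :=
    zpow_le_zpow_right₀ (by norm_num) (by omega)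
  have h2 : (1 : ℝ) ≤ psD (max x (max y z) - x).toNat (max x (max y z) - y).toNat
      (max x (max y z) - z).toNat := by exact_mod_cast psD_pos _ _ _
  have h3 : (0 : ℝ) < (7 / 5 : ℝ) ^ (max x (max y z)) := zpow_pos (by norm_num) _
  nlinarith

lemma Gz_succ (a x y z : ℤ) : Gz (a + 1) (x + 1) (y + 1) (z + 1) = 7 / 5 * Gz a x y z := by
  unfold Gz
  have h1 : max (a + 1) (max (x + 1) (max (y + 1) (z + 1))) = max a (max x (max y z)) + 1 := by
    omega
  have h2 : ∀ m t : ℤ, m + 1 - (t + 1) = m - t := fun m t => by ring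
  rw [h1, h2, h2, h2, h2, qpow, zpow_one]
  ring

end Pool.Agent.Y962.BD
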